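import Mathlib

/-!
Counting primes, residues which are not zeros of a form, and residues determined by few numbers.
-/

set_option autoImplicit false

open Finset Real

namespace Pool.Agent.D0H35.SN

/-- the primes in `(X / 16, X]` -/
def Pr (X : ℕ) : Finset ℕ := (Finset.Icc 1 X).filter fun p => p.Prime ∧ X < 16 * p

theorem log_ineq {s : ℝ} (hs : 32 ≤ s) :
    4 * s * Real.log s + Real.log (s ^ 2 + 1) ≤ s ^ 2 / 2 := by
  have hs0 : 0 < s := by linarith
  have h32 : Real.log 32 = 5 * Real.log 2 := by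
    rw [show (32 : ℝ) = 2 ^ 5 by norm_num, Real.log_pow]
    norm_num
  have hl2 := Real.log_two_lt_d9
  have hl2' := Real.log_two_gt_d9
  have h1 : Real.log s ≤ s / 32 + 5 * Real.log 2 - 1 := by
    have h2 : Real.log (s / 32) ≤ s / 32 - 1 := Real.log_le_sub_one_of_pos (by positivity)
    rw [Real.log_div hs0.ne' (by norm_num), h32] at h2
    linarith
  have h3 : Real.log (s ^ 2 + 1) ≤ Real.log 2 + 2 * Real.log s := by
    have h4 : Real.log (s ^ 2 + 1) ≤ Real.log (2 * s ^ 2) :=
      Real.log_le_log (by positivity) (by nlinarith)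
    rw [Real.log_mul (by norm_num) (by positivity), Real.log_pow] at h4
    exact_mod_cast h4
  have h5 : 4 * s * Real.log s ≤ 4 * s * (s / 32 + 5 * Real.log 2 - 1) := by gcongr
  have h6 : 4 * s * (s / 32 + 5 * Real.log 2 - 1) ≤ s ^ 2 / 8 + 9.87 * s := by nlinarith
  nlinarith

theorem card_Pr {X : ℕ} (hX : 2 ^ 10 ≤ X) : (X : ℝ) / 10 ≤ (Pr X).card * Real.log X := by
  have hX' : (1024 : ℝ) ≤ X := by exact_mod_cast hX
  have hX0 : (0 : ℝ) < X := by linarith
  set s : ℝ := Real.sqrt X with hs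
  have hs0 : 0 < s := Real.sqrt_pos.2 hX0
  have hs2 : s ^ 2 = X := Real.sq_sqrt hX0.le
  have hs32 : 32 ≤ s := by
    rw [hs, show (32 : ℝ) = Real.sqrt 1024 by
      rw [show (1024 : ℝ) = 32 ^ 2 by norm_num, Real.sqrt_sq (by norm_num)]]
    exact Real.sqrt_le_sqrt hX'
  have hlog : Real.log X = 2 * Real.log s := by
    rw [← hs2, Real.log_pow]
    norm_num
  have h1 := Chebyshev.theta_ge X
  have h2 := Chebyshev.theta_le_log4_mul_x (x := (X : ℝ) / 16) (by positivity)
  have h3 := log_ineq hs32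
  have hl4 : Real.log 4 = 2 * Real.log 2 := by
    rw [show (4 : ℝ) = 2 ^ 2 by norm_num, Real.log_pow]
    norm_num
  have hl2 := Real.log_two_gt_d9
  have h4 : Chebyshev.theta X - Chebyshev.theta ((X : ℝ) / 16) ≤ (Pr X).card * Real.log X := by
    rw [Chebyshev.theta, Chebyshev.theta, Nat.floor_natCast]
    have hsub : (Finset.Ioc 0 X).filter Nat.Prime ⊆
        (Finset.Ioc 0 ⌊(X : ℝ) / 16⌋₊).filter Nat.Prime ∪ Pr X := by
      intro p hp
      rw [Finset.mem_filter, Finset.mem_Ioc] at hp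
      obtain ⟨⟨hp0, hpX⟩, hpp⟩ := hp
      rw [Finset.mem_union, Finset.mem_filter, Finset.mem_Ioc, Pr, Finset.mem_filter, Finset.mem_Icc]
      by_cases h : X < 16 * p
      · right
        exact ⟨⟨hp0, hpX⟩, hpp, h⟩
      · left
        refine ⟨⟨hp0, ?_⟩, hpp⟩
        rw [Nat.le_floor_iff (by positivity), le_div_iff₀ (by norm_num)]
        have : p * 16 ≤ X := by omega
        exact_mod_cast this
    have h5 : ∑ p ∈ (Finset.Ioc 0 X).filter Nat.Prime, Real.log p ≤
        ∑ p ∈ (Finset.Ioc 0 ⌊(X : ℝ) / 16⌋₊).filter Nat.Prime, Real.log p +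
          ∑ p ∈ Pr X, Real.log p := by
      refine (Finset.sum_le_sum_of_subset_of_nonneg hsub fun p _ _ => ?_).trans ?_
      · exact Real.log_natCast_nonneg p
      · rw [← Finset.sum_union_inter]
        have : 0 ≤ ∑ p ∈ (Finset.Ioc 0 ⌊(X : ℝ) / 16⌋₊).filter Nat.Prime ∩ Pr X, Real.log p :=
          Finset.sum_nonneg fun p _ => Real.log_natCast_nonneg p
        linarith
    have h6 : ∑ p ∈ Pr X, Real.log p ≤ (Pr X).card * Real.log X := by
      rw [← nsmul_eq_mul]
      refine Finset.sum_le_card_nsmul _ _ _ fun p hp => ?_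
      rw [Pr, Finset.mem_filter, Finset.mem_Icc] at hp
      exact Real.log_le_log (by exact_mod_cast hp.2.1.pos) (by exact_mod_cast hp.1.2)
    linarith
  rw [← hs] at h1
  rw [hs2] at h3
  rw [hlog] at h1
  rw [hl4] at h2
  nlinarith

/-- the residues modulo `p` which are not zeros of the form -/
def good (p : ℕ) (v1 v2 v3 : ℤ) : Finset ℕ :=
  (Finset.range p).filter fun e => ¬ (p : ℤ) ∣ v1 * (e : ℤ) ^ 2 - v2 * e + v3

theorem card_good {p : ℕ} (hp : p.Prime) {v1 v2 v3 x y t : ℤ} (h : v1 * x + v2 * y + v3 * t = 1) :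
    p ≤ (good p v1 v2 v3).card + 2 := by
  classical
  have : Fact p.Prime := ⟨hp⟩
  have hsplit := Finset.card_filter_add_card_filter_not (s := Finset.range p)
    (fun e : ℕ => ¬ (p : ℤ) ∣ v1 * (e : ℤ) ^ 2 - v2 * e + v3)
  rw [Finset.card_range] at hsplit
  have hbad : ((Finset.range p).filter fun e : ℕ =>
      ¬ ¬ (p : ℤ) ∣ v1 * (e : ℤ) ^ 2 - v2 * e + v3).card ≤ 2 := by
    obtain ⟨w1, hw1⟩ : ∃ w : ZMod p, (v1 : ZMod p) = w := ⟨_, rfl⟩
    obtain ⟨w2, hw2⟩ : ∃ w : ZMod p, (v2 : ZMod p) = w := ⟨_, rfl⟩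
    obtain ⟨w3, hw3⟩ : ∃ w : ZMod p, (v3 : ZMod p) = w := ⟨_, rfl⟩
    set f : Polynomial (ZMod p) := Polynomial.C w1 * Polynomial.X ^ 2 +
      Polynomial.C (-w2) * Polynomial.X + Polynomial.C w3 with hf
    have hf0 : f ≠ 0 := by
      intro h0
      have c0 : w3 = 0 := by
        have := congrArg (fun g => Polynomial.coeff g 0) h0
        simpa [hf, Polynomial.coeff_X, Polynomial.coeff_C] using this
      have c1 : w2 = 0 := by
        have := congrArg (fun g => Polynomial.coeff g 1) h0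
        simpa [hf, Polynomial.coeff_X, Polynomial.coeff_C, Polynomial.coeff_X_pow] using this
      have c2 : w1 = 0 := by
        have := congrArg (fun g => Polynomial.coeff g 2) h0
        simpa [hf, Polynomial.coeff_X, Polynomial.coeff_C, Polynomial.coeff_X_pow] using this
      have h1 : ((v1 * x + v2 * y + v3 * t : ℤ) : ZMod p) = 1 := by rw [h]; simp
      push_cast at h1
      rw [hw1, hw2, hw3, c0, c1, c2] at h1
      simp at h1
    have hdeg : f.natDegree ≤ 2 := by
      rw [hf]
      compute_degree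
    have hroots : f.roots.toFinset.card ≤ 2 :=
      (Multiset.toFinset_card_le _).trans ((Polynomial.card_roots' f).trans hdeg)
    refine le_trans (Finset.card_le_card_of_injOn (fun e : ℕ => (e : ZMod p)) ?_ ?_) hroots
    · intro e he
      have he' := Finset.mem_filter.1 (Finset.mem_coe.1 he)
      have h1 := not_not.1 he'.2
      rw [Finset.mem_coe, Multiset.mem_toFinset, Polynomial.mem_roots hf0, Polynomial.IsRoot.def]
      have h2 := (ZMod.intCast_zmod_eq_zero_iff_dvd _ p).2 h1
      push_cast at h2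
      rw [hw1, hw2, hw3] at h2
      rw [hf]
      simp only [Polynomial.eval_add, Polynomial.eval_mul, Polynomial.eval_C, Polynomial.eval_pow,
        Polynomial.eval_X]
      rw [← h2]
      ring
    · intro a ha b hb hab
      have ha' := Finset.mem_range.1 (Finset.mem_filter.1 (Finset.mem_coe.1 ha)).1
      have hb' := Finset.mem_range.1 (Finset.mem_filter.1 (Finset.mem_coe.1 hb)).1
      have h1 := (ZMod.natCast_eq_natCast_iff' a b p).1 hab
      rwa [Nat.mod_eq_of_lt ha', Nat.mod_eq_of_lt hb'] at h1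
  have hg : (good p v1 v2 v3).card = ((Finset.range p).filter fun e : ℕ =>
      ¬ (p : ℤ) ∣ v1 * (e : ℤ) ^ 2 - v2 * e + v3).card := rfl
  omega

/-- a set of residues each of which is determined by two integers of absolute value at most `2` -/
theorem card_few {p : ℕ} (hp : p.Prime) {v1 v2 v3 b : ℤ} (E : Finset ℕ) (hE : ∀ e ∈ E, e < p)
    (h : ∀ e ∈ E, ∃ t y : ℤ, |t| ≤ 2 ∧ |y| ≤ 2 ∧ ¬ (p : ℤ) ∣ t - y * v2 + 2 * b * y * v1 ∧
      (p : ℤ) ∣ e * (t - y * v2 + 2 * b * y * v1) - (b * (t + y * v2) - 2 * y * v3)) :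
    E.card ≤ 25 := by
  classical
  choose! t y ht hy hn hd using h
  have hpp : Prime (p : ℤ) := Nat.prime_iff_prime_int.1 hp
  have h1 : E.card ≤ (Finset.Icc (-2 : ℤ) 2 ×ˢ Finset.Icc (-2 : ℤ) 2).card := by
    refine Finset.card_le_card_of_injOn (fun e => (t e, y e)) ?_ ?_
    · intro e he
      rw [Finset.mem_coe, Finset.mem_product, Finset.mem_Icc, Finset.mem_Icc]
      exact ⟨abs_le.1 (ht e he), abs_le.1 (hy e he)⟩
    · intro e he e' he' hee
      simp only [Prod.mk.injEq] at hee
      obtain ⟨h1, h2⟩ := hee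
      have d1 := hd e he
      have d2 := hd e' he'
      rw [← h1, ← h2] at d2
      have d3 := dvd_sub d1 d2
      have d4 : (p : ℤ) ∣ ((e : ℤ) - e') * (t e - y e * v2 + 2 * b * y e * v1) := by
        have e3 : ((e : ℤ) - e') * (t e - y e * v2 + 2 * b * y e * v1) =
            (e * (t e - y e * v2 + 2 * b * y e * v1) - (b * (t e + y e * v2) - 2 * y e * v3)) -
            (e' * (t e - y e * v2 + 2 * b * y e * v1) - (b * (t e + y e * v2) - 2 * y e * v3)) := by
          ring
        rw [e3]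
        exact d3
      have d5 := (hpp.dvd_or_dvd d4).resolve_right (hn e he)
      have l1 := hE e he
      have l2 := hE e' he'
      have d6 : ((e : ℤ) - e') = 0 := by
        refine Int.eq_zero_of_abs_lt_dvd d5 ?_
        rw [abs_lt]
        constructor <;> omega
      omega
  refine h1.trans ?_
  decide

end Pool.Agent.D0H35.SN
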