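import Mathlib

/-!
Coincidences between Hecke translates in directions which are not fixed by the fixed point form.
-/

set_option autoImplicit false

namespace Pool.Agent.D0H35.SN

/-- the case of a unit -/
theorem unit_case {e A B D b b' c v1 v2 v3 y : ℤ} (hdet : A * D - B * (e * c) = 1)
    (hneg : v2 ^ 2 - 4 * v1 * v3 < 0) (h1 : c = y * v1)
    (h2 : (c * b' + D) - (A - b * c) = y * v2)
    (h3 : -(A * b' + B * e - b * (c * b' + D)) = y * v3) :
    ∃ t : ℤ, |t| ≤ 2 ∧ |y| ≤ 2 ∧ t - y * v2 + 2 * b * y * v1 = 2 * A ∧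
      b' * (t - y * v2 + 2 * b * y * v1) - (b * (t + y * v2) - 2 * y * v3) = - 2 * B * e := by
  refine ⟨A - b * c + c * b' + D, ?_, ?_, ?_, ?_⟩
  · have e1 : (A - b * c + c * b' + D) ^ 2 + y ^ 2 * (4 * v1 * v3 - v2 ^ 2) = 4 := by
      have k1 : y ^ 2 * (4 * v1 * v3 - v2 ^ 2) = 4 * (y * v1) * (y * v3) - (y * v2) ^ 2 := by ring
      rw [k1, ← h1, ← h2, ← h3]
      linear_combination 4 * hdet
    have e2 : 0 ≤ y ^ 2 * (4 * v1 * v3 - v2 ^ 2) := mul_nonneg (sq_nonneg _) (by linarith)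
    exact abs_le_of_sq_le_sq (by linarith) (by norm_num)
  · have e1 : (A - b * c + c * b' + D) ^ 2 + y ^ 2 * (4 * v1 * v3 - v2 ^ 2) = 4 := by
      have k1 : y ^ 2 * (4 * v1 * v3 - v2 ^ 2) = 4 * (y * v1) * (y * v3) - (y * v2) ^ 2 := by ring
      rw [k1, ← h1, ← h2, ← h3]
      linear_combination 4 * hdet
    have e2 : (1 : ℤ) ≤ 4 * v1 * v3 - v2 ^ 2 := by linarith
    refine abs_le_of_sq_le_sq ?_ (by norm_num)
    nlinarith [sq_nonneg y, sq_nonneg (A - b * c + c * b' + D)]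
  · have : 2 * b * y * v1 = 2 * b * (y * v1) := by ring
    rw [this, ← h1, ← h2]
    ring
  · have k1 : 2 * b * y * v1 = 2 * b * (y * v1) := by ring
    have k2 : 2 * y * v3 = 2 * (y * v3) := by ring
    rw [k1, k2, ← h1, ← h2, ← h3]
    ring

/-- Let `v1 x² + v2 x y + v3 y²` be a definite integral form, `p`, `q` odd primes, `b`, `b'` integers with
`v (-b, 1)` prime to `p` and `v (-b', 1)` prime to `q`, `d = p` or `p²`, `d' = q` or `q²`. If
`adj (1, b; 0, d) * (A, B; C, D) * (1, b'; 0, d')` has a fixed point form proportional to `v`, then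
`p = q` and `b'` modulo `p` is one of `25` residues given by `b` and `v`. -/
theorem coin {p q : ℕ} (hp : p.Prime) (hq : q.Prime) (hp2 : p ≠ 2) {b b' d d' : ℤ}
    (hd : d = p ∨ d = (p : ℤ) ^ 2) (hd' : d' = q ∨ d' = (q : ℤ) ^ 2)
    {v1 v2 v3 : ℤ} (hneg : v2 ^ 2 - 4 * v1 * v3 < 0)
    (hv : ¬ (p : ℤ) ∣ v1 * b ^ 2 - v2 * b + v3) (hv' : ¬ (q : ℤ) ∣ v1 * b' ^ 2 - v2 * b' + v3)
    {A B C D k : ℤ} (hdet : A * D - B * C = 1) (h1 : C = k * v1)
    (h2 : (C * b' + D * d') - (d * A - b * C) = k * v2)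
    (h3 : -(d * (A * b' + B * d') - b * (C * b' + D * d')) = k * v3) :
    p = q ∧ ∃ t y : ℤ, |t| ≤ 2 ∧ |y| ≤ 2 ∧ ¬ (p : ℤ) ∣ t - y * v2 + 2 * b * y * v1 ∧
      (p : ℤ) ∣ b' * (t - y * v2 + 2 * b * y * v1) - (b * (t + y * v2) - 2 * y * v3) := by
  have hpp : Prime (p : ℤ) := Nat.prime_iff_prime_int.1 hp
  have hqq : Prime (q : ℤ) := Nat.prime_iff_prime_int.1 hq
  have hpd : (p : ℤ) ∣ d := by
    rcases hd with h | h
    · rw [h]
    · rw [h]; exact dvd_pow_self _ two_ne_zero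
  have hk : (p : ℤ) ∣ k := by
    have e : k * (v1 * b ^ 2 - v2 * b + v3) = d * (b * A - A * b' - B * d') := by
      have e1 : k * (v1 * b ^ 2 - v2 * b + v3) = (k * v1) * b ^ 2 - (k * v2) * b + k * v3 := by ring
      rw [e1, ← h1, ← h2, ← h3]
      ring
    have e2 : (p : ℤ) ∣ k * (v1 * b ^ 2 - v2 * b + v3) := by
      rw [e]
      exact hpd.mul_right _
    exact (hpp.dvd_or_dvd e2).resolve_right hv
  obtain ⟨k', rfl⟩ := hk
  have hC : (p : ℤ) ∣ C := by
    rw [h1, mul_assoc]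
    exact dvd_mul_right _ _
  have hA : ¬ (p : ℤ) ∣ A := by
    intro h
    have : (p : ℤ) ∣ 1 := by
      rw [← hdet]
      exact dvd_sub (h.mul_right _) (hC.mul_left _)
    exact hpp.not_dvd_one this
  have hD : ¬ (p : ℤ) ∣ D := by
    intro h
    have : (p : ℤ) ∣ 1 := by
      rw [← hdet]
      exact dvd_sub (h.mul_left _) (hC.mul_left _)
    exact hpp.not_dvd_one this
  have hp2A : ¬ (p : ℤ) ∣ 2 * A := by
    intro h
    rcases hpp.dvd_or_dvd h with h | h
    · have h' : p ∣ 2 := by exact_mod_cast h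
      exact hp2 ((Nat.prime_dvd_prime_iff_eq hp Nat.prime_two).1 h')
    · exact hA h
  have hd'p : (p : ℤ) ∣ d' := by
    have e : D * d' = (p : ℤ) * k' * v2 + d * A - b * C - C * b' := by linarith
    have e2 : (p : ℤ) ∣ D * d' := by
      rw [e]
      refine dvd_sub (dvd_sub (dvd_add ?_ (hpd.mul_right _)) (hC.mul_left _)) (hC.mul_right _)
      rw [mul_assoc]
      exact dvd_mul_right _ _
    exact (hpp.dvd_or_dvd e2).resolve_left hD
  have hpq : p = q := by
    have : (p : ℤ) ∣ q := by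
      rcases hd' with h | h
      · rwa [h] at hd'p
      · rw [h] at hd'p
        exact hpp.dvd_of_dvd_pow hd'p
    have h' : p ∣ q := by exact_mod_cast this
    exact (Nat.prime_dvd_prime_iff_eq hp hq).1 h'
  subst hpq
  refine ⟨rfl, ?_⟩
  have hp0 : (p : ℤ) ≠ 0 := hpp.ne_zero
  obtain ⟨C1, rfl⟩ := hC
  have g1 : C1 = k' * v1 := by
    apply mul_left_cancel₀ hp0
    linarith
  rcases hd with hd | hd <;> rcases hd' with hd' | hd'
  · -- p, p
    rw [hd, hd'] at h2 h3
    have g2 : (C1 * b' + D) - (A - b * C1) = k' * v2 := by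
      apply mul_left_cancel₀ hp0
      linarith
    have g3 : -(A * b' + B * p - b * (C1 * b' + D)) = k' * v3 := by
      apply mul_left_cancel₀ hp0
      linarith
    obtain ⟨t, ht, hy, e1, e2⟩ := unit_case (e := p) hdet hneg g1 g2 g3
    refine ⟨t, k', ht, hy, by rw [e1]; exact hp2A, ?_⟩
    rw [e2]
    exact dvd_mul_left _ _
  · -- p, p^2
    exfalso
    rw [hd, hd'] at h2 h3
    have g2 : (C1 * b' + D * p) - (A - b * C1) = k' * v2 := by
      apply mul_left_cancel₀ hp0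
      linarith
    have g3 : -(A * b' + B * p ^ 2 - b * (C1 * b' + D * p)) = k' * v3 := by
      apply mul_left_cancel₀ hp0
      linarith
    have e : k' * (v1 * b' ^ 2 - v2 * b' + v3) = p * (-(b' * D) - B * p + b * D) := by
      have e1 : k' * (v1 * b' ^ 2 - v2 * b' + v3) = (k' * v1) * b' ^ 2 - (k' * v2) * b' + k' * v3 := by
        ring
      rw [e1, ← g1, ← g2, ← g3]
      ring
    have e2 : (p : ℤ) ∣ k' := by
      have : (p : ℤ) ∣ k' * (v1 * b' ^ 2 - v2 * b' + v3) := by rw [e]; exact dvd_mul_right _ _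
      exact (hpp.dvd_or_dvd this).resolve_right hv'
    have e3 : (p : ℤ) ∣ C1 := by rw [g1]; exact e2.mul_right _
    apply hA
    have e4 : A = C1 * b' + D * p + b * C1 - k' * v2 := by linarith
    rw [e4]
    exact dvd_sub (dvd_add (dvd_add (e3.mul_right _) (dvd_mul_left _ _)) (e3.mul_left _))
      (e2.mul_right _)
  · -- p^2, p
    exfalso
    rw [hd, hd'] at h2 h3
    have g2 : (C1 * b' + D) - (p * A - b * C1) = k' * v2 := by
      apply mul_left_cancel₀ hp0
      linarith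
    have g3 : -(p * (A * b' + B * p) - b * (C1 * b' + D)) = k' * v3 := by
      apply mul_left_cancel₀ hp0
      linarith
    have e : k' * (v1 * b ^ 2 - v2 * b + v3) = p * (b * A - A * b' - B * p) := by
      have e1 : k' * (v1 * b ^ 2 - v2 * b + v3) = (k' * v1) * b ^ 2 - (k' * v2) * b + k' * v3 := by
        ring
      rw [e1, ← g1, ← g2, ← g3]
      ring
    have e2 : (p : ℤ) ∣ k' := by
      have : (p : ℤ) ∣ k' * (v1 * b ^ 2 - v2 * b + v3) := by rw [e]; exact dvd_mul_right _ _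
      exact (hpp.dvd_or_dvd this).resolve_right hv
    have e3 : (p : ℤ) ∣ C1 := by rw [g1]; exact e2.mul_right _
    apply hD
    have e4 : D = k' * v2 + p * A - b * C1 - C1 * b' := by linarith
    rw [e4]
    exact dvd_sub (dvd_sub (dvd_add (e2.mul_right _) (dvd_mul_right _ _)) (e3.mul_left _))
      (e3.mul_right _)
  · -- p^2, p^2
    rw [hd, hd'] at h2 h3
    have g2 : (C1 * b' + D * p) - (p * A - b * C1) = k' * v2 := by
      apply mul_left_cancel₀ hp0
      linarith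
    have g3 : -(p * (A * b' + B * p ^ 2) - b * (C1 * b' + D * p)) = k' * v3 := by
      apply mul_left_cancel₀ hp0
      linarith
    have e : k' * (v1 * b ^ 2 - v2 * b + v3) = p * (b * A - A * b' - B * p ^ 2) := by
      have e1 : k' * (v1 * b ^ 2 - v2 * b + v3) = (k' * v1) * b ^ 2 - (k' * v2) * b + k' * v3 := by
        ring
      rw [e1, ← g1, ← g2, ← g3]
      ring
    have e2 : (p : ℤ) ∣ k' := by
      have : (p : ℤ) ∣ k' * (v1 * b ^ 2 - v2 * b + v3) := by rw [e]; exact dvd_mul_right _ _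
      exact (hpp.dvd_or_dvd this).resolve_right hv
    obtain ⟨k2, rfl⟩ := e2
    have e3 : (p : ℤ) ∣ C1 := by rw [g1, mul_assoc]; exact dvd_mul_right _ _
    obtain ⟨C2, rfl⟩ := e3
    have f1 : C2 = k2 * v1 := by
      apply mul_left_cancel₀ hp0
      linarith
    have f2 : (C2 * b' + D) - (A - b * C2) = k2 * v2 := by
      apply mul_left_cancel₀ hp0
      linarith
    have f3 : -(A * b' + B * p ^ 2 - b * (C2 * b' + D)) = k2 * v3 := by
      apply mul_left_cancel₀ hp0
      linarith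
    obtain ⟨t, ht, hy, e1, e2⟩ := unit_case (e := (p : ℤ) ^ 2) (by rw [← hdet]; ring) hneg f1 f2 f3
    refine ⟨t, k2, ht, hy, by rw [e1]; exact hp2A, ?_⟩
    rw [e2]
    exact (dvd_pow_self _ two_ne_zero).mul_left _

end Pool.Agent.D0H35.SN
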