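import Pool.Agent.N889.SN.Fin

/-!
# The Hecke eigenvalues of the Hecke-Maass forms are at most `p + 1`
-/

set_option autoImplicit false

open UpperHalfPlane MeasureTheory ModularGroup
open scoped Modular MatrixGroups ENNReal

namespace Pool.Agent.D0H35.SN

open Pool.Agent.N889.SN (mat coe_mat mp det_eq measurableSet_fd Per norm_one)
open Pool.Agent.Results.MP_8fded1_nt.EllipticPointIsHarmless (IsHeckeMaass invariance)

/-! ### the boundary of the fundamental domain -/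

lemma line_null (c : ℝ) : volume {z : ℂ | z.re = c} = 0 := by
  have h := Complex.volume_preserving_equiv_real_prod.measure_preimage
    (s := ({c} : Set ℝ) ×ˢ (Set.univ : Set ℝ)) (MeasurableSet.nullMeasurableSet
      ((measurableSet_singleton c).prod MeasurableSet.univ))
  have e : Complex.measurableEquivRealProd ⁻¹' (({c} : Set ℝ) ×ˢ (Set.univ : Set ℝ)) =
      {z : ℂ | z.re = c} := by
    ext z
    simp [Complex.measurableEquivRealProd]
  rw [e] at h
  rw [h, Measure.volume_eq_prod, Measure.prod_prod]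
  simp

lemma fd_diff_null : volume ((𝒟 : Set ℍ) \ 𝒟ᵒ) = 0 := by
  rw [volume_eq_lintegral]
  refine setLIntegral_measure_zero _ _ ?_
  refine measure_mono_null (t := {z : ℂ | z.re = 1 / 2} ∪ {z : ℂ | z.re = -(1 / 2)} ∪
    Metric.sphere 0 1) ?_ ?_
  · rintro _ ⟨z, ⟨hz1, hz2⟩, rfl⟩
    obtain ⟨h1, h2⟩ := hz1
    by_cases h3 : 1 < Complex.normSq (z : ℂ)
    · left
      have h4 : ¬ |z.re| < 1 / 2 := fun h => hz2 ⟨h3, h⟩
      have h5 : |z.re| = 1 / 2 := le_antisymm h2 (not_lt.1 h4)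
      rcases abs_eq (by norm_num : (0 : ℝ) ≤ 1 / 2) |>.1 h5 with h | h
      · left
        exact h
      · right
        exact h
    · right
      have h4 : Complex.normSq (z : ℂ) = 1 := le_antisymm (not_lt.1 h3) h1
      rw [mem_sphere_zero_iff_norm]
      rw [Complex.normSq_eq_norm_sq] at h4
      have h5 : 0 ≤ ‖(z : ℂ)‖ := norm_nonneg _
      nlinarith
  · rw [measure_union_null_iff, measure_union_null_iff]
    exact ⟨⟨line_null _, line_null _⟩, Measure.addHaar_sphere _ _ _⟩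

lemma lint_fdo (φ : ℍ → ℝ≥0∞) : ∫⁻ z in 𝒟ᵒ, φ z = ∫⁻ z in 𝒟, φ z := by
  refine setLIntegral_congr ?_
  rw [ae_eq_set]
  refine ⟨?_, fd_diff_null⟩
  rw [Set.sdiff_eq_empty.2 fdo_subset_fd]
  exact measure_empty

/-! ### matrices of determinant `p` -/

/-- Hermite normal form -/
lemma hermite {p : ℕ} (hp : p.Prime) {x1 x2 x3 x4 : ℤ} (hx : x1 * x4 - x2 * x3 = p) :
    ∃ h1 h2 h3 h4 a b d : ℤ, h1 * h4 - h2 * h3 = 1 ∧ ((a = 1 ∧ d = p ∧ 0 ≤ b ∧ b < p) ∨
      (a = p ∧ d = 1 ∧ b = 0)) ∧ x1 = h1 * a ∧ x2 = h1 * b + h2 * d ∧ x3 = h3 * a ∧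
      x4 = h3 * b + h4 * d := by
  have hp0 : (p : ℤ) ≠ 0 := by exact_mod_cast hp.ne_zero
  set g : ℤ := ((Int.gcd x1 x3 : ℕ) : ℤ) with hg
  obtain ⟨y1, hy1⟩ : g ∣ x1 := Int.gcd_dvd_left _ _
  obtain ⟨y3, hy3⟩ : g ∣ x3 := Int.gcd_dvd_right _ _
  have hbez : g = x1 * Int.gcdA x1 x3 + x3 * Int.gcdB x1 x3 := Int.gcd_eq_gcd_ab x1 x3
  generalize Int.gcdA x1 x3 = u at hbez
  generalize Int.gcdB x1 x3 = v at hbez
  have hgp : g * (y1 * x4 - y3 * x2) = p := by rw [← hx, hy1, hy3]; ring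
  have hg0 : g ≠ 0 := by
    intro h
    rw [h, zero_mul] at hgp
    exact hp0 hgp.symm
  have hg00 : 0 ≤ g := Int.natCast_nonneg _
  have hdet : y1 * u + y3 * v = 1 := by
    apply mul_left_cancel₀ hg0
    rw [hy1, hy3] at hbez
    linarith
  set δ : ℤ := y1 * x4 - y3 * x2 with hδ
  set β : ℤ := u * x2 + v * x4 with hβ
  have hδ0 : 0 < δ := by
    have hpos : 0 < g := lt_of_le_of_ne hg00 hg0.symm
    have : 0 < g * δ := by rw [hgp]; exact_mod_cast hp.pos
    exact (pos_iff_pos_of_mul_pos this).1 hpos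
  have hcases : (g = 1 ∧ δ = p) ∨ (g = p ∧ δ = 1) := by
    have h1 : Int.gcd x1 x3 ∣ p := by
      have : g ∣ (p : ℤ) := ⟨δ, hgp.symm⟩
      exact Int.natCast_dvd_natCast.1 this
    rcases (Nat.dvd_prime hp).1 h1 with h | h
    · left
      have hg1 : g = 1 := by rw [hg, h]; simp
      rw [hg1, one_mul] at hgp
      exact ⟨hg1, hgp⟩
    · right
      have hg1 : g = p := by rw [hg, h]
      refine ⟨hg1, ?_⟩
      rw [hg1] at hgp
      apply mul_left_cancel₀ hp0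
      linarith
  -- x = (y1, -v; y3, u) (g, β; 0, δ)
  have e2 : x2 = y1 * β + (-v) * δ := by
    rw [hβ, hδ]
    linear_combination (-x2) * hdet
  have e4 : x4 = y3 * β + u * δ := by
    rw [hβ, hδ]
    linear_combination (-x4) * hdet
  refine ⟨y1, y1 * (β / δ) + (-v), y3, y3 * (β / δ) + u, g, β % δ, δ, ?_, ?_, ?_, ?_, ?_, ?_⟩
  · linear_combination hdet
  · rcases hcases with ⟨h1, h2⟩ | ⟨h1, h2⟩
    · left
      refine ⟨h1, h2, Int.emod_nonneg _ hδ0.ne', ?_⟩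
      rw [← h2]
      exact Int.emod_lt_of_pos _ hδ0
    · right
      refine ⟨h1, h2, ?_⟩
      rw [h2, Int.emod_one]
  · rw [hy1]; ring
  · rw [e2]
    have := Int.emod_add_mul_ediv β δ
    linear_combination (-y1) * this
  · rw [hy3]; ring
  · rw [e4]
    have := Int.emod_add_mul_ediv β δ
    linear_combination (-y3) * this

/-- representatives of `SL_2(Z)` modulo signs -/
def Half : Set SL(2, ℤ) := {g | 0 < g 1 0 ∨ (g 1 0 = 0 ∧ 0 < g 1 1)}

lemma half (w : ℍ) : ∃ g ∈ Half, g⁻¹ • w ∈ 𝒟 := by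
  obtain ⟨g0, hg0⟩ := exists_smul_mem_fd w
  by_cases h : g0⁻¹ ∈ Half
  · exact ⟨g0⁻¹, h, by rwa [inv_inv]⟩
  · refine ⟨-g0⁻¹, ?_, ?_⟩
    · have hdet := det_eq g0⁻¹
      simp only [Half, Set.mem_ofPred_eq, not_or, not_lt, not_and] at h
      obtain ⟨h1, h2⟩ := h
      have e1 : (-g0⁻¹) 1 0 = -(g0⁻¹ 1 0) := by simp [Matrix.SpecialLinearGroup.coe_neg]
      have e2 : (-g0⁻¹) 1 1 = -(g0⁻¹ 1 1) := by simp [Matrix.SpecialLinearGroup.coe_neg]
      change 0 < (-g0⁻¹) 1 0 ∨ ((-g0⁻¹) 1 0 = 0 ∧ 0 < (-g0⁻¹) 1 1)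
      rw [e1, e2]
      rcases lt_or_eq_of_le h1 with h3 | h3
      · left; linarith
      · right
        refine ⟨by rw [h3]; rfl, ?_⟩
        have h4 := h2 h3
        have h5 : g0⁻¹ 1 1 ≠ 0 := by
          intro h6
          rw [h3, h6] at hdet
          simp at hdet
        have h6 := lt_of_le_of_ne h4 h5
        linarith
    · have e : (-g0⁻¹)⁻¹ = -g0 := by
        rw [inv_neg, inv_inv]
      rw [e, SL_neg_smul]
      exact hg0

end Pool.Agent.D0H35.SN
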