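import Pool.Agent.D0H35.SN.Eig

/-!
# The Hecke eigenvalues of the Hecke-Maass forms are at most `p + 1`: counting and unfolding
-/

set_option autoImplicit false

open UpperHalfPlane MeasureTheory ModularGroup
open scoped Modular MatrixGroups ENNReal

namespace Pool.Agent.D0H35.SN

open Pool.Agent.N889.SN (mat coe_mat mp det_eq measurableSet_fd Per norm_one)
open Pool.Agent.Results.MP_8fded1_nt.EllipticPointIsHarmless (IsHeckeMaass invariance)

/-- entries of the representatives: `(1, i; 0, p)` for `i < p`, `(p, 0; 0, 1)` for `i = p` -/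
def ea (p i : ℕ) : ℤ := if i = p then p else 1
def eb (p i : ℕ) : ℤ := if i = p then 0 else i
def ed (p i : ℕ) : ℤ := if i = p then 1 else p

lemma ea_pos {p : ℕ} (hp : p.Prime) (i : ℕ) : 0 < ea p i := by
  unfold ea; split_ifs
  · exact_mod_cast hp.pos
  · norm_num

lemma ed_pos {p : ℕ} (hp : p.Prime) (i : ℕ) : 0 < ed p i := by
  unfold ed; split_ifs
  · norm_num
  · exact_mod_cast hp.pos

lemma ea_ed (p i : ℕ) : ea p i * ed p i = p := by
  unfold ea ed; split_ifs <;> ring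

/-- the representative as an element of `GL_2(R)` -/
noncomputable def al {p : ℕ} (hp : p.Prime) (i : ℕ) : GL (Fin 2) ℝ :=
  mat (ea p i) (eb p i) (ed p i) (by
    have h1 : (0 : ℝ) < ea p i := by exact_mod_cast ea_pos hp i
    have h2 : (0 : ℝ) < ed p i := by exact_mod_cast ed_pos hp i
    positivity)

lemma coe_al {p : ℕ} (hp : p.Prime) (i : ℕ) (z : ℍ) :
    ((al hp i • z : ℍ) : ℂ) = ((ea p i : ℂ) * z + (eb p i : ℂ)) / (ed p i : ℂ) := by
  have h1 : (0 : ℝ) < ea p i := by exact_mod_cast ea_pos hp i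
  have h2 : (0 : ℝ) < ed p i := by exact_mod_cast ed_pos hp i
  rw [al, coe_mat h1 h2]
  push_cast
  rfl

/-- the inverse acts by `z ↦ (d z - b) / a` -/
lemma coe_al_inv {p : ℕ} (hp : p.Prime) (i : ℕ) (z : ℍ) :
    (((al hp i)⁻¹ • z : ℍ) : ℂ) = ((ed p i : ℂ) * z - (eb p i : ℂ)) / (ea p i : ℂ) := by
  have h := coe_al hp i ((al hp i)⁻¹ • z)
  rw [smul_inv_smul] at h
  have h1 : (ea p i : ℂ) ≠ 0 := by exact_mod_cast (ea_pos hp i).ne'
  have h2 : (ed p i : ℂ) ≠ 0 := by exact_mod_cast (ed_pos hp i).ne'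
  rw [h]
  field_simp
  ring

lemma frac1 {d N Δ b a : ℂ} (hΔ : Δ ≠ 0) (ha : a ≠ 0) :
    (d * (N / Δ) - b) / a = (d * N - b * Δ) / (a * Δ) := by
  rw [div_eq_div_iff ha (mul_ne_zero ha hΔ)]
  have : N / Δ * Δ = N := div_mul_cancel₀ N hΔ
  linear_combination a * d * this

lemma frac2 {h1 h2 h3 h4 u e : ℂ} (he : e ≠ 0) (h : h3 * (u / e) + h4 ≠ 0) :
    (h1 * (u / e) + h2) / (h3 * (u / e) + h4) = (h1 * u + h2 * e) / (h3 * u + h4 * e) := by
  have hu : u / e * e = u := div_mul_cancel₀ u he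
  have e1 : h3 * u + h4 * e = (h3 * (u / e) + h4) * e := by
    linear_combination (-h3) * hu
  have e2 : h1 * u + h2 * e = (h1 * (u / e) + h2) * e := by
    linear_combination (-h1) * hu
  rw [e1, e2, mul_div_mul_right _ _ he]

/-- `α⁻¹ g z = h (α'' z)` for the Hermite normal form `h α''` of `adj (α) g` -/
lemma exists_herm {p : ℕ} (hp : p.Prime) (i : ℕ) (g : SL(2, ℤ)) :
    ∃ (h : SL(2, ℤ)) (j : ℕ), j ≤ p ∧
      (ed p i * g 0 0 - eb p i * g 1 0 = h 0 0 * ea p j ∧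
      ed p i * g 0 1 - eb p i * g 1 1 = h 0 0 * eb p j + h 0 1 * ed p j ∧
      ea p i * g 1 0 = h 1 0 * ea p j ∧
      ea p i * g 1 1 = h 1 0 * eb p j + h 1 1 * ed p j) ∧
      ∀ z : ℍ, (al hp i)⁻¹ • (g • z) = h • (al hp j • z) := by
  have hx : (ed p i * g 0 0 - eb p i * g 1 0) * (ea p i * g 1 1) -
      (ed p i * g 0 1 - eb p i * g 1 1) * (ea p i * g 1 0) = p := by
    have := det_eq g
    have h2 := ea_ed p i
    calc _ = (ea p i * ed p i) * (g 0 0 * g 1 1 - g 0 1 * g 1 0) := by ring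
      _ = p := by rw [this, h2, mul_one]
  obtain ⟨h1, h2, h3, h4, a, b, d, hdet, hc, k1, k2, k3, k4⟩ := hermite hp hx
  obtain ⟨j, hj, ja, jb, jd⟩ : ∃ j : ℕ, j ≤ p ∧ ea p j = a ∧ eb p j = b ∧ ed p j = d := by
    rcases hc with ⟨ha, hd, hb0, hbp⟩ | ⟨ha, hd, hb⟩
    · refine ⟨b.toNat, by omega, ?_, ?_, ?_⟩
      · rw [ea, if_neg (by omega), ha]
      · rw [eb, if_neg (by omega)]
        exact Int.toNat_of_nonneg hb0
      · rw [ed, if_neg (by omega), hd]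
    · refine ⟨p, le_rfl, ?_, ?_, ?_⟩
      · rw [ea, if_pos rfl, ha]
      · rw [eb, if_pos rfl, hb]
      · rw [ed, if_pos rfl, hd]
  refine ⟨⟨!![h1, h2; h3, h4], by rw [Matrix.det_fin_two]; simpa using hdet⟩, j, hj, ?_, ?_⟩
  · rw [ja, jb, jd]
    exact ⟨k1, k2, k3, k4⟩
  · intro z
    rw [← ja] at k1 k3
    rw [← jb, ← jd] at k2 k4
    apply UpperHalfPlane.ext
    rw [coe_al_inv, coe_specialLinearGroup_apply, coe_specialLinearGroup_apply, coe_al]
    simp only [algebraMap_int_eq, eq_intCast, Complex.ofReal_intCast]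
    have ha : (ea p i : ℂ) ≠ 0 := by exact_mod_cast (ea_pos hp i).ne'
    have hdj : (ed p j : ℂ) ≠ 0 := by exact_mod_cast (ed_pos hp j).ne'
    have hden : ((g 1 0 : ℂ)) * z + (g 1 1 : ℂ) ≠ 0 := by
      have := denom_ne_zero (g : GL (Fin 2) ℝ) z
      simpa [denom] using this
    have hden2 : (h3 : ℂ) * (((ea p j : ℂ) * z + (eb p j : ℂ)) / (ed p j : ℂ)) + h4 ≠ 0 := by
      intro h0
      have e1 : (h3 : ℂ) * ((ea p j : ℂ) * z + (eb p j : ℂ)) + h4 * (ed p j : ℂ) = 0 := by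
        field_simp at h0
        linear_combination h0
      have e2 : (h3 : ℂ) * ((ea p j : ℂ) * z + (eb p j : ℂ)) + h4 * (ed p j : ℂ) =
          (ea p i : ℂ) * ((g 1 0 : ℂ) * z + (g 1 1 : ℂ)) := by
        have k3' : ((ea p i * g 1 0 : ℤ) : ℂ) = ((h3 * ea p j : ℤ) : ℂ) := by rw [k3]
        have k4' : ((ea p i * g 1 1 : ℤ) : ℂ) = ((h3 * eb p j + h4 * ed p j : ℤ) : ℂ) := by rw [k4]
        push_cast at k3' k4'
        linear_combination (-(z : ℂ)) * k3' - k4'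
      rw [e2] at e1
      exact mul_ne_zero ha hden e1
    have k1' : ((ed p i * g 0 0 - eb p i * g 1 0 : ℤ) : ℂ) = ((h1 * ea p j : ℤ) : ℂ) := by rw [k1]
    have k2' : ((ed p i * g 0 1 - eb p i * g 1 1 : ℤ) : ℂ) =
        ((h1 * eb p j + h2 * ed p j : ℤ) : ℂ) := by rw [k2]
    have k3' : ((ea p i * g 1 0 : ℤ) : ℂ) = ((h3 * ea p j : ℤ) : ℂ) := by rw [k3]
    have k4' : ((ea p i * g 1 1 : ℤ) : ℂ) = ((h3 * eb p j + h4 * ed p j : ℤ) : ℂ) := by rw [k4]
    push_cast at k1' k2' k3' k4'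
    have n1 : (ed p i : ℂ) * ((g 0 0 : ℂ) * z + (g 0 1 : ℂ)) -
        (eb p i : ℂ) * ((g 1 0 : ℂ) * z + (g 1 1 : ℂ)) =
        (h1 : ℂ) * ((ea p j : ℂ) * z + (eb p j : ℂ)) + h2 * (ed p j : ℂ) := by
      linear_combination (z : ℂ) * k1' + k2'
    have n2 : (ea p i : ℂ) * ((g 1 0 : ℂ) * z + (g 1 1 : ℂ)) =
        (h3 : ℂ) * ((ea p j : ℂ) * z + (eb p j : ℂ)) + h4 * (ed p j : ℂ) := by
      linear_combination (z : ℂ) * k3' + k4'
    have l1 : ((ed p i : ℂ) * (((g 0 0 : ℂ) * z + (g 0 1 : ℂ)) /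
        ((g 1 0 : ℂ) * z + (g 1 1 : ℂ))) - (eb p i : ℂ)) / (ea p i : ℂ) =
        ((ed p i : ℂ) * ((g 0 0 : ℂ) * z + (g 0 1 : ℂ)) -
        (eb p i : ℂ) * ((g 1 0 : ℂ) * z + (g 1 1 : ℂ))) /
        ((ea p i : ℂ) * ((g 1 0 : ℂ) * z + (g 1 1 : ℂ))) := frac1 hden ha
    have l2 : ((h1 : ℂ) * (((ea p j : ℂ) * z + (eb p j : ℂ)) / (ed p j : ℂ)) + h2) /
        ((h3 : ℂ) * (((ea p j : ℂ) * z + (eb p j : ℂ)) / (ed p j : ℂ)) + h4) =
        ((h1 : ℂ) * ((ea p j : ℂ) * z + (eb p j : ℂ)) + h2 * (ed p j : ℂ)) /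
        ((h3 : ℂ) * ((ea p j : ℂ) * z + (eb p j : ℂ)) + h4 * (ed p j : ℂ)) := frac2 hdj hden2
    have l3 := l1.trans ((by rw [n1, n2] : _ = ((h1 : ℂ) * ((ea p j : ℂ) * z + (eb p j : ℂ)) +
      h2 * (ed p j : ℂ)) / ((h3 : ℂ) * ((ea p j : ℂ) * z + (eb p j : ℂ)) + h4 * (ed p j : ℂ))).trans
      l2.symm)
    simpa using l3

/-- the entries of `adj (α) g` up to sign determine `α` and `g` in `Half` -/
lemma entries_inj {p : ℕ} (hp : p.Prime) {i i' : ℕ} (hi : i ≤ p) (hi' : i' ≤ p) {g g' : SL(2, ℤ)}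
    (hg : g ∈ Half) (hg' : g' ∈ Half) {s : ℤ} (hs : s = 1 ∨ s = -1)
    (k1 : ed p i * g 0 0 - eb p i * g 1 0 = s * (ed p i' * g' 0 0 - eb p i' * g' 1 0))
    (k2 : ed p i * g 0 1 - eb p i * g 1 1 = s * (ed p i' * g' 0 1 - eb p i' * g' 1 1))
    (k3 : ea p i * g 1 0 = s * (ea p i' * g' 1 0)) (k4 : ea p i * g 1 1 = s * (ea p i' * g' 1 1)) :
    i = i' ∧ g = g' := by
  have hp0 : (p : ℤ) ≠ 0 := by exact_mod_cast hp.ne_zero
  have d1 := det_eq g
  have d2 := det_eq g'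
  have hp2 : (2 : ℤ) ≤ p := by exact_mod_cast hp.two_le
  have a1 := ea_pos hp i
  have a2 := ea_pos hp i'
  -- the first entries agree
  have hdvd : ∀ {i i' : ℕ} {g g' : SL(2, ℤ)} {s : ℤ}, ea p i * g 1 0 = s * (ea p i' * g' 1 0) →
      ea p i * g 1 1 = s * (ea p i' * g' 1 1) → ea p i' ∣ ea p i := by
    intro i i' g g' s k3 k4
    have d1 := det_eq g
    refine ⟨s * (g 0 0 * g' 1 1 - g 0 1 * g' 1 0), ?_⟩
    calc ea p i = g 0 0 * (ea p i * g 1 1) - g 0 1 * (ea p i * g 1 0) := by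
          linear_combination (-(ea p i)) * d1
      _ = _ := by rw [k3, k4]; ring
  have hss : s * s = 1 := by rcases hs with h | h <;> rw [h] <;> norm_num
  have ha : ea p i = ea p i' := by
    refine Int.dvd_antisymm a1.le a2.le ?_ ?_
    · refine hdvd (i := i') (i' := i) (g := g') (g' := g) (s := s) ?_ ?_
      · rw [k3, ← mul_assoc, hss, one_mul]
      · rw [k4, ← mul_assoc, hss, one_mul]
    · exact hdvd k3 k4
  have hd : ed p i = ed p i' := by
    have h1 := ea_ed p i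
    have h2 := ea_ed p i'
    rw [ha] at h1
    exact mul_left_cancel₀ a2.ne' (h1.trans h2.symm)
  have c3 : g 1 0 = s * g' 1 0 := by
    apply mul_left_cancel₀ a2.ne'
    rw [← ha, k3, ha]; ring
  have c4 : g 1 1 = s * g' 1 1 := by
    apply mul_left_cancel₀ a2.ne'
    rw [← ha, k4, ha]; ring
  have hs1 : s = 1 := by
    rcases hs with h | h
    · exact h
    · exfalso
      rw [h] at c3 c4
      rcases hg with h1 | ⟨h1, h2⟩ <;> rcases hg' with h3 | ⟨h3, h4⟩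
      · linarith
      · rw [h3] at c3; linarith
      · linarith
      · linarith
  subst hs1
  rw [one_mul] at c3 c4 k1 k2
  rw [← c3, hd] at k1
  rw [← c4, hd] at k2
  have hb : ed p i' ∣ eb p i - eb p i' := by
    refine ⟨g 0 0 * (g 0 1 - g' 0 1) - g 0 1 * (g 0 0 - g' 0 0), ?_⟩
    have e1 : (eb p i - eb p i') * g 1 0 = ed p i' * (g 0 0 - g' 0 0) := by
      linear_combination (-1) * k1
    have e2 : (eb p i - eb p i') * g 1 1 = ed p i' * (g 0 1 - g' 0 1) := by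
      linear_combination (-1) * k2
    calc eb p i - eb p i' = g 0 0 * ((eb p i - eb p i') * g 1 1) -
          g 0 1 * ((eb p i - eb p i') * g 1 0) := by
          linear_combination (-(eb p i - eb p i')) * d1
      _ = _ := by rw [e1, e2]; ring
  have hii : i = i' := by
    unfold ea at ha
    unfold ed eb at hb
    by_cases h1 : i = p <;> by_cases h2 : i' = p
    · rw [h1, h2]
    · rw [if_pos h1, if_neg h2] at ha
      omega
    · rw [if_neg h1, if_pos h2] at ha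
      omega
    · rw [if_neg h2, if_neg h1, if_neg h2] at hb
      have h3 : ((i : ℤ) - i') = 0 := by
        refine Int.eq_zero_of_abs_lt_dvd hb ?_
        rw [abs_lt]
        constructor <;> omega
      omega
  subst hii
  refine ⟨rfl, ?_⟩
  have hd0 := ed_pos hp i
  have c1 : g 0 0 = g' 0 0 := by
    apply mul_left_cancel₀ hd0.ne'
    linarith
  have c2 : g 0 1 = g' 0 1 := by
    apply mul_left_cancel₀ hd0.ne'
    linarith
  ext a b
  fin_cases a <;> fin_cases b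
  · exact c1
  · exact c2
  · exact c3
  · exact c4

/-- every point occurs at most `p + 1` times -/
theorem count_pairs {p : ℕ} (hp : p.Prime) (z : ℍ) :
    {x : ℕ × SL(2, ℤ) | x.1 ≤ p ∧ x.2 ∈ Half ∧ (al hp x.1)⁻¹ • (x.2 • z) ∈ 𝒟ᵒ}.encard ≤ (p + 1 : ℕ) := by
  classical
  choose! h j hj hent hact using fun (i : ℕ) (g : SL(2, ℤ)) => exists_herm hp i g
  have hmaps : Set.MapsTo (fun x : ℕ × SL(2, ℤ) => j x.1 x.2)
      {x : ℕ × SL(2, ℤ) | x.1 ≤ p ∧ x.2 ∈ Half ∧ (al hp x.1)⁻¹ • (x.2 • z) ∈ 𝒟ᵒ}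
      ((Finset.range (p + 1) : Finset ℕ) : Set ℕ) := by
    intro x _
    rw [Finset.mem_coe, Finset.mem_range]
    exact Nat.lt_succ_of_le (hj _ _)
  have hinj : Set.InjOn (fun x : ℕ × SL(2, ℤ) => j x.1 x.2)
      {x : ℕ × SL(2, ℤ) | x.1 ≤ p ∧ x.2 ∈ Half ∧ (al hp x.1)⁻¹ • (x.2 • z) ∈ 𝒟ᵒ} := by
    rintro ⟨i, g⟩ ⟨hi, hg, hz⟩ ⟨i', g'⟩ ⟨hi', hg', hz'⟩ hjj
    simp only at hi hg hz hi' hg' hz' hjj
    rw [hact] at hz hz'
    rw [← hjj] at hz'
    have h1 : (h i' g' * (h i g)⁻¹) • (h i g • (al hp (j i g) • z)) ∈ 𝒟ᵒ := by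
      rw [mul_smul, inv_smul_smul]
      exact hz'
    have h2 := eq_one_or_neg_one_of_mem_fdo_mem_fdo hz h1
    obtain ⟨k1, k2, k3, k4⟩ := hent i g
    obtain ⟨l1, l2, l3, l4⟩ := hent i' g'
    rw [← hjj] at l1 l2 l3 l4
    have key : ∃ s : ℤ, (s = 1 ∨ s = -1) ∧ ∀ a b, h i g a b = s * h i' g' a b := by
      rcases h2 with h2 | h2
      · refine ⟨1, Or.inl rfl, fun a b => ?_⟩
        rw [mul_inv_eq_one.1 h2, one_mul]
      · refine ⟨-1, Or.inr rfl, fun a b => ?_⟩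
        have h3 : h i' g' = -(h i g) := by
          rw [mul_inv_eq_iff_eq_mul] at h2
          rw [h2, neg_mul, one_mul]
        rw [h3]
        simp [Matrix.SpecialLinearGroup.coe_neg]
    obtain ⟨s, hs, hsab⟩ := key
    obtain ⟨e1, e2⟩ := entries_inj hp hi hi' hg hg' hs (by
      rw [k1, l1, hsab]; ring) (by rw [k2, l2, hsab, hsab]; ring) (by rw [k3, l3, hsab]; ring)
      (by rw [k4, l4, hsab, hsab]; ring)
    rw [e1, e2]
  have h1 := Set.encard_le_encard_of_injOn hmaps hinj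
  rwa [Set.encard_coe_eq_coe_finsetCard, Finset.card_range] at h1

end Pool.Agent.D0H35.SN
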