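import Pool.Agent.D0H35.SN.Eig2

/-!
# The Hecke eigenvalues of the Hecke-Maass forms are at most `p + 1`: conclusion
-/

set_option autoImplicit false

open UpperHalfPlane MeasureTheory ModularGroup
open scoped Modular MatrixGroups ENNReal

namespace Pool.Agent.D0H35.SN

open Pool.Agent.N889.SN (mat coe_mat mp det_eq measurableSet_fd Per norm_one)
open Pool.Agent.Results.MP_8fded1_nt.EllipticPointIsHarmless (IsHeckeMaass invariance)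

/-- exact unfolding for the Hecke operator `T_p` -/
theorem lint_sum_le {p : ℕ} (hp : p.Prime) (φ : ℍ → ℝ≥0∞) (hφ : Measurable φ)
    (hinv : ∀ (g : SL(2, ℤ)) (z : ℍ), φ (g • z) = φ z) :
    ∑ i ∈ Finset.range (p + 1), ∫⁻ z in 𝒟ᵒ, φ (al hp i • z) ≤
      ((p + 1 : ℕ) : ℝ≥0∞) * ∫⁻ z in 𝒟, φ z := by
  classical
  have hsm : ∀ g : SL(2, ℤ), Measurable (fun z : ℍ => g • z) := fun g =>
    (mp ((g : SL(2, ℤ)) : GL (Fin 2) ℝ)).measurable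
  have hfdo : MeasurableSet (𝒟ᵒ : Set ℍ) := isOpen_fdo.measurableSet
  let F : ℕ → ℍ → ℝ≥0∞ := fun i w => Set.indicator 𝒟ᵒ 1 ((al hp i)⁻¹ • w) * φ w
  have hF : ∀ i, Measurable (F i) := fun i =>
    ((measurable_one.indicator hfdo).comp (mp (al hp i)⁻¹).measurable).mul hφ
  let ψ : ℕ × SL(2, ℤ) → ℍ → ℝ≥0∞ := fun x =>
    if x.1 ≤ p ∧ x.2 ∈ Half then
      Set.indicator 𝒟 (fun z => Set.indicator 𝒟ᵒ 1 ((al hp x.1)⁻¹ • (x.2 • z)) * φ z)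
    else 0
  have hψ : ∀ x, Measurable (ψ x) := by
    intro x
    simp only [ψ]
    split_ifs
    · exact (((measurable_one.indicator hfdo).comp
        ((mp (al hp x.1)⁻¹).measurable.comp (hsm x.2))).mul hφ).indicator measurableSet_fd
    · exact measurable_zero
  have h0 : ∀ i, ∫⁻ z in 𝒟ᵒ, φ (al hp i • z) = ∫⁻ w, F i w := by
    intro i
    rw [← lintegral_indicator hfdo, ← (mp (al hp i)).lintegral_comp (hF i)]
    refine lintegral_congr fun z => ?_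
    simp only [F]
    rw [inv_smul_smul]
    by_cases hz : z ∈ 𝒟ᵒ
    · rw [Set.indicator_of_mem hz, Set.indicator_of_mem hz]
      simp
    · rw [Set.indicator_of_notMem hz, Set.indicator_of_notMem hz]
      simp
  have h1 : ∀ i ≤ p, ∀ w, F i w ≤ ∑' g : SL(2, ℤ), ψ (i, g) (g⁻¹ • w) := by
    intro i hi w
    obtain ⟨g, hg, hgw⟩ := half w
    refine le_trans (le_of_eq ?_) (ENNReal.le_tsum g)
    simp only [F, ψ]
    rw [if_pos ⟨hi, hg⟩, Set.indicator_of_mem hgw, smul_inv_smul, hinv]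
  have h2 : ∀ x : ℕ × SL(2, ℤ), ∫⁻ z, ψ x (x.2⁻¹ • z) = ∫⁻ z, ψ x z := fun x =>
    (mp ((x.2⁻¹ : SL(2, ℤ)) : GL (Fin 2) ℝ)).lintegral_comp (hψ x)
  have h3 : ∀ z, ∑' x : ℕ × SL(2, ℤ), ψ x z ≤
      Set.indicator 𝒟 (fun z => ((p + 1 : ℕ) : ℝ≥0∞) * φ z) z := by
    intro z
    by_cases hz : z ∈ 𝒟
    · have e : ∀ x, ψ x z =
          ({x : ℕ × SL(2, ℤ) | x.1 ≤ p ∧ x.2 ∈ Half ∧
            (al hp x.1)⁻¹ • (x.2 • z) ∈ 𝒟ᵒ}.indicator 1 x : ℝ≥0∞) * φ z := by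
        intro x
        simp only [ψ]
        by_cases hx : x.1 ≤ p ∧ x.2 ∈ Half
        · rw [if_pos hx, Set.indicator_of_mem hz]
          congr 1
          by_cases hx2 : (al hp x.1)⁻¹ • (x.2 • z) ∈ 𝒟ᵒ
          · rw [Set.indicator_of_mem hx2, Set.indicator_of_mem (show x ∈ {x : ℕ × SL(2, ℤ) |
              x.1 ≤ p ∧ x.2 ∈ Half ∧ (al hp x.1)⁻¹ • (x.2 • z) ∈ 𝒟ᵒ} from ⟨hx.1, hx.2, hx2⟩)]
            rfl
          · rw [Set.indicator_of_notMem hx2, Set.indicator_of_notMem]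
            exact fun h => hx2 h.2.2
        · rw [if_neg hx, Set.indicator_of_notMem]
          · simp
          · exact fun h => hx ⟨h.1, h.2.1⟩
      rw [tsum_congr e, ENNReal.tsum_mul_right, Set.indicator_of_mem hz]
      gcongr
      rw [← tsum_subtype _ (1 : ℕ × SL(2, ℤ) → ℝ≥0∞)]
      simp only [Pi.one_apply]
      rw [ENNReal.tsum_set_one]
      exact_mod_cast count_pairs hp z
    · rw [Set.indicator_of_notMem hz]
      refine le_of_eq ?_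
      rw [ENNReal.tsum_eq_zero]
      intro x
      simp only [ψ]
      split_ifs
      · rw [Set.indicator_of_notMem hz]
      · rfl
  have h4 : ∀ i ≤ p, ∫⁻ w, F i w ≤ ∑' g : SL(2, ℤ), ∫⁻ z, ψ (i, g) z := by
    intro i hi
    calc ∫⁻ w, F i w ≤ ∫⁻ w, ∑' g : SL(2, ℤ), ψ (i, g) (g⁻¹ • w) := lintegral_mono (h1 i hi)
      _ = ∑' g : SL(2, ℤ), ∫⁻ w, ψ (i, g) (g⁻¹ • w) :=
          lintegral_tsum fun g => ((hψ (i, g)).comp (hsm g⁻¹)).aemeasurable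
      _ = ∑' g : SL(2, ℤ), ∫⁻ z, ψ (i, g) z := tsum_congr fun g => h2 (i, g)
  calc ∑ i ∈ Finset.range (p + 1), ∫⁻ z in 𝒟ᵒ, φ (al hp i • z)
      = ∑ i ∈ Finset.range (p + 1), ∫⁻ w, F i w := Finset.sum_congr rfl fun i _ => h0 i
    _ ≤ ∑ i ∈ Finset.range (p + 1), ∑' g : SL(2, ℤ), ∫⁻ z, ψ (i, g) z :=
        Finset.sum_le_sum fun i hi => h4 i (Nat.lt_succ_iff.1 (Finset.mem_range.1 hi))
    _ ≤ ∑' i, ∑' g : SL(2, ℤ), ∫⁻ z, ψ (i, g) z := ENNReal.sum_le_tsum _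
    _ = ∑' x : ℕ × SL(2, ℤ), ∫⁻ z, ψ x z := (ENNReal.tsum_prod (f := fun i g => ∫⁻ z, ψ (i, g) z)).symm
    _ = ∫⁻ z, ∑' x : ℕ × SL(2, ℤ), ψ x z := (lintegral_tsum fun x => (hψ x).aemeasurable).symm
    _ ≤ ∫⁻ z, Set.indicator 𝒟 (fun z => ((p + 1 : ℕ) : ℝ≥0∞) * φ z) z := lintegral_mono h3
    _ = ∫⁻ z in 𝒟, ((p + 1 : ℕ) : ℝ≥0∞) * φ z := lintegral_indicator measurableSet_fd _
    _ = ((p + 1 : ℕ) : ℝ≥0∞) * ∫⁻ z in 𝒟, φ z := lintegral_const_mul _ hφ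

/-- **The eigenvalue of `T_p` is at most `p + 1`.** -/
theorem eig_le {p : ℕ} (hp : p.Prime) (U : ℂ → ℂ)
    (hmeas : Measurable (fun z : ℍ => ENNReal.ofReal (‖U z‖ ^ 2)))
    (hinv : ∀ (g : SL(2, ℤ)) (z : ℍ), U ((g • z : ℍ) : ℂ) = U z)
    (h0 : ∫⁻ z in 𝒟, ENNReal.ofReal (‖U (z : ℍ)‖ ^ 2) ≠ 0)
    (htop : ∫⁻ z in 𝒟, ENNReal.ofReal (‖U (z : ℍ)‖ ^ 2) ≠ ∞) (c : ℂ)
    (hc : ∀ z : ℂ, 0 < z.im → U (p * z) + ∑ b ∈ Finset.range p, U ((z + b) / p) = c * U z) :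
    ‖c‖ ≤ p + 1 := by
  have hp0 : (0 : ℝ) < p := by exact_mod_cast hp.pos
  set φ : ℍ → ℝ≥0∞ := fun z => ENNReal.ofReal (‖U z‖ ^ 2) with hφ
  have hφinv : ∀ (g : SL(2, ℤ)) (z : ℍ), φ (g • z) = φ z := fun g z => by
    simp only [hφ]
    rw [hinv]
  set I := ∫⁻ z in 𝒟, φ z with hI
  have hsum := lint_sum_le hp φ hmeas hφinv
  rw [← hI] at hsum
  have key : ∀ z : ℍ, ENNReal.ofReal (‖c‖ ^ 2) * φ z ≤
      ((p + 1 : ℕ) : ℝ≥0∞) * ∑ i ∈ Finset.range (p + 1), φ (al hp i • z) := by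
    intro z
    have h1 : ‖c‖ * ‖U z‖ ≤ ∑ i ∈ Finset.range (p + 1), ‖U (al hp i • z : ℍ)‖ := by
      rw [← norm_mul, ← hc z z.im_pos, Finset.sum_range_succ, add_comm]
      refine (norm_add_le _ _).trans (add_le_add ?_ ?_)
      · refine (norm_sum_le _ _).trans (le_of_eq (Finset.sum_congr rfl fun b hb => ?_))
        have hb' := Finset.mem_range.1 hb
        rw [coe_al, ea, eb, ed, if_neg (by omega), if_neg (by omega), if_neg (by omega)]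
        simp
      · rw [coe_al, ea, eb, ed, if_pos rfl, if_pos rfl, if_pos rfl]
        simp
    have h2 : (∑ i ∈ Finset.range (p + 1), ‖U (al hp i • z : ℍ)‖) ^ 2 ≤
        ((p + 1 : ℕ) : ℝ) * ∑ i ∈ Finset.range (p + 1), ‖U (al hp i • z : ℍ)‖ ^ 2 := by
      have h3 := sq_sum_le_card_mul_sum_sq (s := Finset.range (p + 1))
        (f := fun i => ‖U (al hp i • z : ℍ)‖)
      rwa [Finset.card_range] at h3
    have h4 : ‖c‖ ^ 2 * ‖U z‖ ^ 2 ≤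
        ((p + 1 : ℕ) : ℝ) * ∑ i ∈ Finset.range (p + 1), ‖U (al hp i • z : ℍ)‖ ^ 2 := by
      rw [← mul_pow]
      exact (pow_le_pow_left₀ (by positivity) h1 2).trans h2
    have h5 := ENNReal.ofReal_le_ofReal h4
    rw [ENNReal.ofReal_mul (by positivity), ENNReal.ofReal_mul (by positivity),
      ENNReal.ofReal_natCast, ENNReal.ofReal_sum_of_nonneg (fun b _ => sq_nonneg _)] at h5
    exact h5
  have hm : ∀ i, Measurable fun z : ℍ => φ (al hp i • z) := fun i =>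
    hmeas.comp (mp (al hp i)).measurable
  have total : ENNReal.ofReal (‖c‖ ^ 2) * I ≤
      (((p + 1 : ℕ) : ℝ≥0∞) * ((p + 1 : ℕ) : ℝ≥0∞)) * I := by
    calc ENNReal.ofReal (‖c‖ ^ 2) * I = ∫⁻ z in 𝒟ᵒ, ENNReal.ofReal (‖c‖ ^ 2) * φ z := by
          rw [lintegral_const_mul _ hmeas, lint_fdo]
      _ ≤ ∫⁻ z in 𝒟ᵒ, ((p + 1 : ℕ) : ℝ≥0∞) * ∑ i ∈ Finset.range (p + 1), φ (al hp i • z) :=
          lintegral_mono key
      _ = ((p + 1 : ℕ) : ℝ≥0∞) * ∑ i ∈ Finset.range (p + 1), ∫⁻ z in 𝒟ᵒ, φ (al hp i • z) := by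
          rw [lintegral_const_mul _ (Finset.measurable_sum _ fun i _ => hm i),
            lintegral_finsetSum _ fun i _ => hm i]
      _ ≤ ((p + 1 : ℕ) : ℝ≥0∞) * (((p + 1 : ℕ) : ℝ≥0∞) * I) := mul_le_mul_right hsum _
      _ = _ := by rw [mul_assoc]
  have h1 : ENNReal.ofReal (‖c‖ ^ 2) ≤ ((p + 1 : ℕ) : ℝ≥0∞) * ((p + 1 : ℕ) : ℝ≥0∞) :=
    (ENNReal.mul_le_mul_iff_left h0 htop).1 total
  have h2 : ((p + 1 : ℕ) : ℝ≥0∞) * ((p + 1 : ℕ) : ℝ≥0∞) = ENNReal.ofReal (((p : ℝ) + 1) ^ 2) := by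
    rw [sq, ENNReal.ofReal_mul (by positivity), show (p : ℝ) + 1 = ((p + 1 : ℕ) : ℝ) by push_cast; ring,
      ENNReal.ofReal_natCast]
  rw [h2, ENNReal.ofReal_le_ofReal_iff (by positivity)] at h1
  exact (pow_le_pow_iff_left₀ (norm_nonneg c) (by positivity) two_ne_zero).1 h1

/-- Hecke-Maass forms: eigenvalues at most `p + 1` -/
theorem per_of {U : ℂ → ℂ} {T : ℝ} (hU : IsHeckeMaass U T) : Per (fun p => (p : ℝ) + 1) U := by
  refine ⟨fun z hz => (hU.2.1 z hz).1, fun p hp => ?_⟩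
  obtain ⟨c, hc⟩ := hU.2.2.2.2.2 p hp.one_le
  have hc' : ∀ z : ℂ, 0 < z.im → U (p * z) + ∑ b ∈ Finset.range p, U ((z + b) / p) = c * U z := by
    intro z hz
    rw [← hc z hz, hp.divisors, Finset.sum_pair hp.one_lt.ne]
    simp [Nat.div_self hp.pos]
  refine ⟨c, ?_, hc'⟩
  obtain ⟨hm, h1⟩ := norm_one hU
  exact eig_le hp U hm (fun g z => invariance hU.2.1 g z) (by rw [h1]; exact one_ne_zero)
    (by rw [h1]; exact ENNReal.one_ne_top) c hc'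

end Pool.Agent.D0H35.SN
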