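import Pool.Agent.D0H35.SN.Main

/-!
# Large values outside arbitrary small sets: the theorem
-/

set_option autoImplicit false

open UpperHalfPlane
open scoped MatrixGroups

namespace Pool.Agent.D0H35.SN

open Pool.Agent.N889.SN (Per det_eq)

theorem dist_sl (g : SL(2, ℤ)) (z w : ℍ) : dist (g • z) (g • w) = dist z w := by
  have h : ∀ u : ℍ, g • u = (Matrix.SpecialLinearGroup.map (Int.castRingHom ℝ) g) • u := by
    intro u
    apply UpperHalfPlane.ext
    rw [coe_specialLinearGroup_apply, coe_specialLinearGroup_apply]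
    simp
  rw [h z, h w, dist_smul]

/-- the number of the directions -/
theorem card_dirs {X : ℕ} (hX : 2 ^ 10 ≤ X) {M : ℕ}
    (hM : 2 ^ 13 * (M : ℝ) * Real.log X ≤ (X : ℝ) ^ 2) {v1 v2 v3 x y t : ℤ}
    (h : v1 * x + v2 * y + v3 * t = 1) :
    M * 25 < ((Pr X).sigma fun p => good p v1 v2 v3).card := by
  have hX' : (1024 : ℝ) ≤ X := by exact_mod_cast hX
  have hX0 : (0 : ℝ) < X := by linarith
  have hlog : 0 < Real.log X := Real.log_pos (by linarith)
  have h1 := card_Pr hX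
  have h2 : ((Pr X).card : ℝ) * ((X : ℝ) / 32) ≤
      (((Pr X).sigma fun p => good p v1 v2 v3).card : ℝ) := by
    rw [Finset.card_sigma]
    push_cast
    rw [← nsmul_eq_mul]
    refine Finset.card_nsmul_le_sum _ _ _ fun p hp => ?_
    rw [Pr, Finset.mem_filter, Finset.mem_Icc] at hp
    have h3 := card_good hp.2.1 h
    have h4 : (p : ℝ) ≤ (good p v1 v2 v3).card + 2 := by exact_mod_cast h3
    have h5 : (X : ℝ) < 16 * p := by exact_mod_cast hp.2.2
    linarith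
  have h3 : ((M * 25 : ℕ) : ℝ) < (((Pr X).sigma fun p => good p v1 v2 v3).card : ℝ) := by
    refine lt_of_lt_of_le ?_ h2
    push_cast
    have h4 : (M : ℝ) * 25 * Real.log X < (Pr X).card * ((X : ℝ) / 32) * Real.log X := by
      have h5 : (X : ℝ) / 10 * (X / 32) ≤ (Pr X).card * Real.log X * (X / 32) :=
        mul_le_mul_of_nonneg_right h1 (by positivity)
      have h6 : (0 : ℝ) < (X : ℝ) ^ 2 := by positivity
      nlinarith
    exact lt_of_mul_lt_mul_right h4 hlog.le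
  exact_mod_cast h3

/-- a large value outside the translates of `M` given balls -/
theorem avoid {U : ℂ → ℂ} (hU : Per (fun p => (p : ℝ) + 1) U) {R : ℝ} (hR : 1 ≤ R) {X : ℕ}
    (hX : 2 ^ 10 ≤ X) {M : ℕ} (c : Fin M → ℍ)
    (hM : 2 ^ 13 * (M : ℝ) * Real.log X ≤ (X : ℝ) ^ 2) {z : ℍ} (hz : ‖(z : ℂ)‖ ≤ R)
    (hz' : 1 / R ≤ z.im) :
    ∃ (w : ℍ) (b d : ℕ), 0 < d ∧ b < d ∧ d ≤ X ^ 2 ∧ (w : ℂ) = ((z : ℂ) + b) / d ∧
      ‖U z‖ ≤ (2 * (X : ℝ) + 1) * ‖U w‖ ∧
      ∀ (i : Fin M) (g : SL(2, ℤ)), 1 / (2 ^ 6 * R ^ 2 * (X : ℝ) ^ 4) ≤ dist (g • w) (c i) := by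
  classical
  rcases Nat.eq_zero_or_pos M with hM0 | hM0
  · subst hM0
    refine ⟨z, 0, 1, one_pos, one_pos, Nat.one_le_pow _ _ (by omega), by simp, ?_,
      fun i => i.elim0⟩
    have : 0 ≤ ‖U z‖ := norm_nonneg _
    have hX0 : (0 : ℝ) ≤ X := Nat.cast_nonneg _
    nlinarith
  by_contra hcon
  have hX' : (1024 : ℝ) ≤ X := by exact_mod_cast hX
  have hX0 : (0 : ℝ) < X := by linarith
  have hR0 : 0 < R := by linarith
  set r : ℝ := 1 / (2 ^ 6 * R ^ 2 * (X : ℝ) ^ 4) with hr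
  have hr0 : 0 < r := by positivity
  have hRX : (1 : ℝ) ≤ R ^ 2 * (X : ℝ) ^ 4 := by
    have h1 : (1 : ℝ) ≤ R ^ 2 := one_le_pow₀ hR
    have h2 : (1 : ℝ) ≤ (X : ℝ) ^ 4 := one_le_pow₀ (by linarith)
    nlinarith
  have hrRX : r * (R ^ 2 * (X : ℝ) ^ 4) = 1 / 64 := by
    rw [hr]
    field_simp
    norm_num
  have hr1 : r ≤ 1 / 64 := by
    have : r * 1 ≤ r * (R ^ 2 * (X : ℝ) ^ 4) := mul_le_mul_of_nonneg_left hRX hr0.le
    linarith
  obtain ⟨v1, v2, v3, x, y, t, hbez, hneg, hform⟩ := exists_form hR hz hz' (S := (X : ℝ) ^ 2)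
    (ε := 6 * r) (one_le_pow₀ (by linarith)) (by positivity) (by
      have : 6 * R ^ 2 * (6 * r) * ((X : ℝ) ^ 2 * (X : ℝ) ^ 2) = 36 * (r * (R ^ 2 * (X : ℝ) ^ 4)) := by
        ring
      rw [this, hrRX]
      norm_num)
  set I := (Pr X).sigma fun p => good p v1 v2 v3 with hI
  have hcard : M * 25 < I.card := card_dirs hX hM hbez
  have H : ∀ x ∈ I, ∃ (w : ℍ) (b d : ℕ) (i : Fin M) (g : SL(2, ℤ)), (d = x.1 ∨ d = x.1 ^ 2) ∧
      b % x.1 = x.2 ∧ (w : ℂ) = ((z : ℂ) + b) / d ∧ dist (g • w) (c i) < r := by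
    rintro ⟨p, e⟩ hx
    rw [hI, Finset.mem_sigma, Pr, Finset.mem_filter, Finset.mem_Icc, good, Finset.mem_filter,
      Finset.mem_range] at hx
    obtain ⟨⟨⟨_, hpX⟩, hp, _⟩, he, _⟩ := hx
    obtain ⟨b, d, hd, hbd, hbe, hle⟩ := star hU hp (z := (z : ℂ)) z.im_pos he
    have hd0 : 0 < d := lt_of_le_of_lt (Nat.zero_le _) hbd
    have hdX : d ≤ X ^ 2 := by
      rcases hd with h | h
      · rw [h]; nlinarith
      · rw [h]; exact Nat.pow_le_pow_left hpX 2
    have him : 0 < (((z : ℂ) + b) / d).im := by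
      have hdr : (0 : ℝ) < d := by exact_mod_cast hd0
      have : (((z : ℂ) + b) / d).im = z.im / d := by
        rw [show (d : ℂ) = ((d : ℝ) : ℂ) by norm_cast, Complex.div_ofReal_im]
        simp
      rw [this]
      have := z.im_pos
      positivity
    by_contra hno
    apply hcon
    refine ⟨⟨((z : ℂ) + b) / d, him⟩, b, d, hd0, hbd, hdX, rfl, ?_, ?_⟩
    · refine hle.trans ?_
      have : (p : ℝ) ≤ X := by exact_mod_cast hpX
      gcongr
    · intro i g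
      by_contra hlt
      rw [not_le] at hlt
      exact hno ⟨_, b, d, i, g, hd, hbe, rfl, hlt⟩
  have : Nonempty (Fin M) := ⟨⟨0, hM0⟩⟩
  have : Nonempty ℍ := ⟨z⟩
  choose! w b d i g hd hb hw hdist using H
  obtain ⟨i0, _, hi0⟩ := Finset.exists_lt_card_fiber_of_mul_lt_card_of_maps_to
    (s := I) (t := (Finset.univ : Finset (Fin M))) (f := i) (n := 25)
    (fun _ _ => Finset.mem_univ _) (by rwa [Finset.card_univ, Fintype.card_fin])
  set K := I.filter fun x => i x = i0 with hK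
  have hKne : K.Nonempty := Finset.card_pos.1 (by omega)
  obtain ⟨x0, hx0⟩ := hKne
  have mem : ∀ x ∈ K, x ∈ I ∧ x.1.Prime ∧ 0 < x.1 ∧ x.1 ≤ X ∧ x.1 ≠ 2 ∧ x.2 < x.1 ∧
      ¬ (x.1 : ℤ) ∣ v1 * (x.2 : ℤ) ^ 2 - v2 * x.2 + v3 := by
    intro x hx
    have h1 : x ∈ I := (Finset.mem_filter.1 hx).1
    have h2 := h1
    rw [hI, Finset.mem_sigma, Pr, Finset.mem_filter, Finset.mem_Icc, good, Finset.mem_filter,
      Finset.mem_range] at h2
    obtain ⟨⟨⟨_, hpX⟩, hp, hXp⟩, he, hne⟩ := h2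
    exact ⟨h1, hp, hp.pos, hpX, by omega, he, hne⟩
  obtain ⟨hI0, hp0, hp00, hpX0, hp02, he0, hv0⟩ := mem x0 hx0
  have key : ∀ x ∈ K, x.1 = x0.1 ∧ ∃ t y : ℤ, |t| ≤ 2 ∧ |y| ≤ 2 ∧
      ¬ (x0.1 : ℤ) ∣ t - y * v2 + 2 * (b x0 : ℤ) * y * v1 ∧
      (x0.1 : ℤ) ∣ x.2 * (t - y * v2 + 2 * (b x0 : ℤ) * y * v1) -
        ((b x0 : ℤ) * (t + y * v2) - 2 * y * v3) := by
    intro x hx
    obtain ⟨hIx, hpx, hpx0, hpX, _, hex, hvx⟩ := mem x hx
    have hix : i x = i0 := (Finset.mem_filter.1 hx).2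
    have hix0 : i x0 = i0 := (Finset.mem_filter.1 hx0).2
    have dpos : ∀ x ∈ I, 0 < x.1 → 0 < d x := by
      intro x hx h
      rcases hd x hx with h1 | h1 <;> rw [h1]
      · exact h
      · positivity
    have dX : ∀ x ∈ I, x.1 ≤ X → (d x : ℝ) ≤ (X : ℝ) ^ 2 := by
      intro x hx h
      have h2 : d x ≤ X ^ 2 := by
        rcases hd x hx with h1 | h1 <;> rw [h1]
        · nlinarith
        · exact Nat.pow_le_pow_left h 2
      exact_mod_cast h2
    have hdd : dist (((g x0)⁻¹ * g x) • w x) (w x0) < 2 * r := by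
      have h1 : dist (((g x0)⁻¹ * g x) • w x) (w x0) = dist (g x • w x) (g x0 • w x0) := by
        rw [mul_smul, ← dist_sl (g x0) ((g x0)⁻¹ • (g x • w x)) (w x0), smul_inv_smul]
      rw [h1]
      have h2 := hdist x hIx
      have h3 := hdist x0 hI0
      rw [hix] at h2
      rw [hix0] at h3
      have h4 := dist_triangle_right (g x • w x) (g x0 • w x0) (c i0)
      linarith
    obtain ⟨n1, n2, n3⟩ := near_pair (z := z) (dpos x hIx hpx0) (dpos x0 hI0 hp00) (hw x hIx)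
      (hw x0 hI0) ((g x0)⁻¹ * g x) (δ := 2 * r) (ε := 6 * r) (S := (X : ℝ) ^ 2) (by linarith)
      (by positivity) (by nlinarith [sq_nonneg r]) (by positivity) (by
        have h1 := dX x hIx hpX
        have h2 := dX x0 hI0 hpX0
        calc (d x0 : ℝ) * d x ≤ (X : ℝ) ^ 2 * (X : ℝ) ^ 2 := by gcongr
          _ = _ := by ring) hdd
    obtain ⟨k, k1, k2, k3⟩ := hform _ _ _ _ n1 n2 n3
    have hdet := det_eq ((g x0)⁻¹ * g x)
    have hcoin := coin (p := x0.1) (q := x.1) hp0 hpx hp02 (b := (b x0 : ℤ)) (b' := (b x : ℤ))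
      (d := (d x0 : ℤ)) (d' := (d x : ℤ)) (by
        rcases hd x0 hI0 with h | h
        · left; rw [h]
        · right; rw [h]; push_cast; ring) (by
        rcases hd x hIx with h | h
        · left; rw [h]
        · right; rw [h]; push_cast; ring) hneg
      (by rw [form_congr, hb x0 hI0]; exact hv0) (by rw [form_congr, hb x hIx]; exact hvx)
      hdet k1 k2 k3
    obtain ⟨hpq, t, y, ht, hy, hn, hdv⟩ := hcoin
    refine ⟨hpq.symm, t, y, ht, hy, hn, ?_⟩
    have hbx : (b x : ℤ) = (x.2 : ℤ) + x0.1 * ((b x / x.1 : ℕ) : ℤ) := by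
      have h1 := Nat.mod_add_div (b x) x.1
      rw [hb x hIx] at h1
      rw [hpq]
      exact_mod_cast h1.symm
    rw [hbx] at hdv
    have e1 : ((x.2 : ℤ) + x0.1 * ((b x / x.1 : ℕ) : ℤ)) *
        (t - y * v2 + 2 * (b x0 : ℤ) * y * v1) - ((b x0 : ℤ) * (t + y * v2) - 2 * y * v3) =
        (x.2 * (t - y * v2 + 2 * (b x0 : ℤ) * y * v1) -
          ((b x0 : ℤ) * (t + y * v2) - 2 * y * v3)) +
        x0.1 * (((b x / x.1 : ℕ) : ℤ) * (t - y * v2 + 2 * (b x0 : ℤ) * y * v1)) := by ring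
    rw [e1] at hdv
    exact (dvd_add_left (dvd_mul_right _ _)).1 hdv
  have hE : (K.image fun x => x.2).card = K.card := by
    refine Finset.card_image_of_injOn ?_
    intro x hx x' hx' hxx
    have h1 := (key x hx).1
    have h2 := (key x' hx').1
    refine Sigma.ext (h1.trans h2.symm) (heq_of_eq hxx)
  have hE2 : (K.image fun x => x.2).card ≤ 25 := by
    refine card_few hp0 (b := (b x0 : ℤ)) (v1 := v1) (v2 := v2) (v3 := v3) _ ?_ ?_
    · intro e he
      obtain ⟨x, hx, rfl⟩ := Finset.mem_image.1 he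
      rw [← (key x hx).1]
      exact (mem x hx).2.2.2.2.2.1
    · intro e he
      obtain ⟨x, hx, rfl⟩ := Finset.mem_image.1 he
      exact (key x hx).2
  omega

end Pool.Agent.D0H35.SN
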