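import Pool.Agent.N661.SN.Generic

/-!
All near returns of a point of bounded determinant have proportional fixed point forms.
-/

set_option autoImplicit false

open UpperHalfPlane

namespace Pool.Agent.D0H35.SN

open Pool.Agent.N661.SN

theorem exists_form {R : ℝ} (hR : 1 ≤ R) {z : ℍ} (hzR : ‖(z : ℂ)‖ ≤ R) (hzr : 1 / R ≤ z.im)
    {S ε : ℝ} (hS : 1 ≤ S) (hε : 0 < ε) (hsm : 6 * R ^ 2 * ε * (S * S) < 1) :
    ∃ v1 v2 v3 x y t : ℤ, v1 * x + v2 * y + v3 * t = 1 ∧ v2 ^ 2 - 4 * v1 * v3 < 0 ∧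
      ∀ A B C D : ℤ, 0 < A * D - B * C → ((A * D - B * C : ℤ) : ℝ) ≤ S ^ 2 →
        ‖q C (D - A) (-B) (z : ℂ)‖ ≤ ε * S * z.im →
          ∃ k : ℤ, C = k * v1 ∧ D - A = k * v2 ∧ -B = k * v3 := by
  have hR0 : 0 < R := by linarith
  have hS0 : 0 < S := by linarith
  have hRR : 1 ≤ R ^ 2 := one_le_pow₀ hR
  have hRR' : R ≤ R ^ 2 := le_self_pow₀ hR (by norm_num)
  have hSS : S ≤ S * S := by nlinarith
  have hSS1 : 1 ≤ S * S := by nlinarith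
  have hsm1 : ε ≤ 1 / 2 := by
    have h1 : ε ≤ R ^ 2 * ε * (S * S) := by
      have h2 : 1 ≤ R ^ 2 * (S * S) := by nlinarith
      nlinarith
    nlinarith
  have hzi := z.im_pos
  have hziR : z.im ≤ R := by
    have := Complex.abs_im_le_norm (z : ℂ)
    rw [UpperHalfPlane.coe_im] at this
    exact (le_abs_self _).trans (this.trans hzR)
  have hzx : |(z : ℂ).re| ≤ R := (Complex.abs_re_le_norm (z : ℂ)).trans hzR
  have hdisc : ∀ A B C D : ℤ, 0 < A * D - B * C → ((A * D - B * C : ℤ) : ℝ) ≤ S ^ 2 →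
      -4 * S ^ 2 ≤ ((D - A : ℤ) : ℝ) ^ 2 - 4 * (C : ℝ) * ((-B : ℤ) : ℝ) := by
    intro A B C D _ h2
    push_cast at h2 ⊢
    nlinarith [sq_nonneg ((A : ℝ) + D)]
  by_cases hret : ∃ A B C D : ℤ, 0 < A * D - B * C ∧ ((A * D - B * C : ℤ) : ℝ) ≤ S ^ 2 ∧
      ¬ (C = 0 ∧ D - A = 0 ∧ -B = 0) ∧ ‖q C (D - A) (-B) (z : ℂ)‖ ≤ ε * S * z.im
  swap
  · refine ⟨1, 0, 1, 1, 0, 0, by norm_num, by norm_num, fun A B C D h1 h2 h3 => ⟨0, ?_⟩⟩
    by_contra hcon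
    apply hret
    refine ⟨A, B, C, D, h1, h2, fun h => hcon ?_, h3⟩
    simpa using h
  obtain ⟨A0, B0, C0, D0, hdet0, hdetN, hns0, hq0⟩ := hret
  obtain ⟨u0, a0, b0, c0, x, y, t, hu0, hCa, hDb, hBc, hbez⟩ := bezout3 hns0
  have hu1 : (1 : ℤ) ≤ |u0| := Int.one_le_abs hu0
  have hu2 : (1 : ℤ) ≤ u0 ^ 2 := by rw [← sq_abs]; nlinarith
  have hqv : ‖q a0 b0 c0 (z : ℂ)‖ ≤ ε * S * z.im := by
    have e : q C0 (D0 - A0) (-B0) (z : ℂ) = (u0 : ℂ) * q a0 b0 c0 (z : ℂ) := by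
      rw [hCa, hDb, hBc, q, q]
      push_cast
      ring
    rw [e, norm_mul] at hq0
    have h1 : (1 : ℝ) ≤ ‖(u0 : ℂ)‖ := by
      rw [Complex.norm_intCast]
      exact_mod_cast hu1
    have h2 : 0 ≤ ‖q a0 b0 c0 (z : ℂ)‖ := norm_nonneg _
    nlinarith
  have hdr : -4 * S ^ 2 ≤ (b0 : ℝ) ^ 2 - 4 * a0 * c0 := by
    have h1 := hdisc A0 B0 C0 D0 hdet0 hdetN
    rw [hDb, hBc, hCa] at h1
    push_cast at h1
    have e : ((u0 : ℝ) * b0) ^ 2 - 4 * (u0 * a0) * (u0 * c0) =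
        (u0 : ℝ) ^ 2 * ((b0 : ℝ) ^ 2 - 4 * a0 * c0) := by ring
    rw [e] at h1
    have hu3 : (1 : ℝ) ≤ (u0 : ℝ) ^ 2 := by exact_mod_cast hu2
    rcases le_or_gt 0 ((b0 : ℝ) ^ 2 - 4 * a0 * c0) with h | h
    · nlinarith
    · nlinarith
  obtain ⟨p1, p2, p3⟩ := size (z := (z : ℂ)) (R := R) hzi hziR hzx hS0 hε hsm1 hdr hqv
  obtain ⟨ha0, hneg⟩ := nondeg (z := (z : ℂ)) hR hzi hzr hS0 hε (by
      have h1 : R * (ε * S) ≤ R ^ 2 * (ε * (S * S)) := by gcongr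
      nlinarith) (by
      rintro ⟨h1, h2, h3⟩
      rw [h1, h2, h3] at hbez
      simp at hbez) hqv p2 p3
  refine ⟨a0, b0, c0, x, y, t, hbez, hneg, fun A B C D hdet hN hq => ?_⟩
  obtain ⟨r1, r2, r3⟩ := size (z := (z : ℂ)) (R := R) hzi hziR hzx hS0 hε hsm1
    (hdisc A B C D hdet hN) hq
  obtain ⟨g1, g2⟩ := parallel (z := (z : ℂ)) hR hzi hziR hzr hS0 hS0 hε hsm p1 p2 p3 r1 r2 r3
  set W2 : ℤ := D - A with hW2
  set W3 : ℤ := -B with hW3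
  have f1 : C = a0 * (C * x + W2 * y + W3 * t) := by
    linear_combination (-C) * hbez - y * g1 - t * g2
  have f2 : W2 = b0 * (C * x + W2 * y + W3 * t) := by
    apply mul_left_cancel₀ ha0
    linear_combination g1 + b0 * f1
  have f3 : W3 = c0 * (C * x + W2 * y + W3 * t) := by
    apply mul_left_cancel₀ ha0
    linear_combination g2 + c0 * f1
  refine ⟨C * x + W2 * y + W3 * t, ?_, ?_, ?_⟩
  · linarith
  · linarith
  · linarith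

end Pool.Agent.D0H35.SN
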