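import Pool.Agent.D0H35.SN.Eig3
import Pool.Agent.D0H35.SN.Form
import Pool.Agent.D0H35.SN.Coin
import Pool.Agent.D0H35.SN.Cnt

/-!
# Large values outside arbitrary small sets
-/

set_option autoImplicit false

open UpperHalfPlane
open scoped MatrixGroups

namespace Pool.Agent.D0H35.SN

open Pool.Agent.N889.SN (Per det_eq)
open Pool.Agent.N661.SN (q near_le)

/-- in every direction `e` there is a point where `U` is not much smaller -/
theorem star {U : ℂ → ℂ} (h : Per (fun p => (p : ℝ) + 1) U) {p : ℕ} (hp : p.Prime) {z : ℂ}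
    (hz : 0 < z.im) {e : ℕ} (he : e < p) :
    ∃ b d : ℕ, (d = p ∨ d = p ^ 2) ∧ b < d ∧ b % p = e ∧
      ‖U z‖ ≤ (2 * (p : ℝ) + 1) * ‖U ((z + (b : ℂ)) / (d : ℂ))‖ := by
  by_contra hcon
  have hp0 : (0 : ℝ) < p := by exact_mod_cast hp.pos
  have hpc : (p : ℂ) ≠ 0 := by exact_mod_cast hp.ne_zero
  have hK : (0 : ℝ) < 2 * (p : ℝ) + 1 := by positivity
  have hcon' : ∀ b d : ℕ, (d = p ∨ d = p ^ 2) → b < d → b % p = e →
      ‖U ((z + (b : ℂ)) / (d : ℂ))‖ < ‖U z‖ / (2 * (p : ℝ) + 1) := by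
    intro b d h1 h2 h3
    rw [lt_div_iff₀ hK, mul_comm]
    by_contra h4
    exact hcon ⟨b, d, h1, h2, h3, not_lt.1 h4⟩
  set ε := ‖U z‖ / (2 * (p : ℝ) + 1) with hε
  have hUz : ‖U z‖ = (2 * (p : ℝ) + 1) * ε := by
    rw [hε]; field_simp
  obtain ⟨c, hcp, hc⟩ := h.hecke p hp
  set ζ : ℂ := (z + (e : ℂ)) / (p : ℂ) with hζ
  have hζim : 0 < ζ.im := by
    have : ζ.im = z.im / p := by
      rw [hζ, show (p : ℂ) = ((p : ℝ) : ℂ) by norm_cast, Complex.div_ofReal_im]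
      simp
    rw [this]; positivity
  have h1 := hc ζ hζim
  have h2 : U ((p : ℂ) * ζ) = U z := by
    rw [hζ, mul_div_cancel₀ _ hpc, h.nat e hz]
  have h3 : ‖U ζ‖ < ε := by
    have := hcon' e p (Or.inl rfl) he (Nat.mod_eq_of_lt he)
    exact this
  have h4 : ∀ b' ∈ Finset.range p, ‖U ((ζ + (b' : ℂ)) / (p : ℂ))‖ ≤ ε := by
    intro b' hb'
    have hb2 := Finset.mem_range.1 hb'
    have hlt : e + p * b' < p ^ 2 := by
      calc e + p * b' < p + p * b' := by omega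
        _ = p * (b' + 1) := by ring
        _ ≤ p * p := Nat.mul_le_mul_left _ (by omega)
        _ = p ^ 2 := by ring
    have h5 := hcon' (e + p * b') (p ^ 2) (Or.inr rfl) hlt (by
      rw [Nat.add_mul_mod_self_left, Nat.mod_eq_of_lt he])
    have e1 : (ζ + (b' : ℂ)) / (p : ℂ) = (z + ((e + p * b' : ℕ) : ℂ)) / ((p ^ 2 : ℕ) : ℂ) := by
      rw [hζ]
      push_cast
      field_simp
      ring
    rw [e1]
    exact h5.le
  have h5 : ‖∑ b' ∈ Finset.range p, U ((ζ + (b' : ℂ)) / (p : ℂ))‖ ≤ p * ε := by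
    refine (norm_sum_le_of_le _ h4).trans ?_
    rw [Finset.sum_const, Finset.card_range, nsmul_eq_mul]
  have h6 : ‖U z‖ ≤ ‖c‖ * ‖U ζ‖ + p * ε := by
    have e1 : U z = c * U ζ - ∑ b' ∈ Finset.range p, U ((ζ + (b' : ℂ)) / (p : ℂ)) := by
      rw [← h1, h2]; ring
    calc ‖U z‖ = ‖c * U ζ - ∑ b' ∈ Finset.range p, U ((ζ + (b' : ℂ)) / (p : ℂ))‖ := by rw [← e1]
      _ ≤ ‖c * U ζ‖ + ‖∑ b' ∈ Finset.range p, U ((ζ + (b' : ℂ)) / (p : ℂ))‖ := norm_sub_le _ _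
      _ ≤ _ := by
        rw [norm_mul]
        gcongr
  have h7 : ‖c‖ * ‖U ζ‖ ≤ ((p : ℝ) + 1) * ‖U ζ‖ := by gcongr
  have h8 : ((p : ℝ) + 1) * ‖U ζ‖ < ((p : ℝ) + 1) * ε := by gcongr
  linarith

/-- affine maps of the real line are isometries -/
theorem dist_aff {d b : ℝ} (hd : 0 < d) {u v u' v' : ℍ} (hu : (u' : ℂ) = d * u - b)
    (hv : (v' : ℂ) = d * v - b) : dist u' v' = dist u v := by
  have e1 : u'.im = d * u.im := by
    have := congrArg Complex.im hu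
    simpa using this
  have e2 : v'.im = d * v.im := by
    have := congrArg Complex.im hv
    simpa using this
  have e3 : dist (u' : ℂ) (v' : ℂ) = d * dist (u : ℂ) (v : ℂ) := by
    rw [dist_eq_norm, dist_eq_norm, hu, hv]
    have : (d : ℂ) * u - b - (d * v - b) = d * (u - v) := by ring
    rw [this, norm_mul, Complex.norm_real, Real.norm_of_nonneg hd.le]
  have hui := u.im_pos
  have hvi := v.im_pos
  rw [UpperHalfPlane.dist_eq, UpperHalfPlane.dist_eq, e1, e2, e3]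
  have e4 : Real.sqrt (d * u.im * (d * v.im)) = d * Real.sqrt (u.im * v.im) := by
    rw [show d * u.im * (d * v.im) = d ^ 2 * (u.im * v.im) by ring,
      Real.sqrt_mul (by positivity), Real.sqrt_sq hd.le]
  rw [e4]
  congr 2
  have h5 : 0 < Real.sqrt (u.im * v.im) := Real.sqrt_pos.2 (by positivity)
  field_simp

/-- two Hecke translates close to each other give a near return -/
theorem near_pair {z w w0 : ℍ} {b b0 d d0 : ℕ} (hd : 0 < d) (hd0 : 0 < d0)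
    (hw : (w : ℂ) = ((z : ℂ) + b) / d) (hw0 : (w0 : ℂ) = ((z : ℂ) + b0) / d0) (g : SL(2, ℤ))
    {δ ε S : ℝ} (hδ : δ ≤ 1 / 4) (hε : 0 < ε) (hδε : 8 * δ ^ 2 ≤ ε ^ 2) (hS : 0 ≤ S)
    (hdS : ((d0 : ℝ) * d) ≤ S ^ 2) (hdist : dist (g • w) w0 < δ) :
    0 < (d0 * g 0 0 - b0 * g 1 0) * (g 1 0 * b + g 1 1 * d) -
      (d0 * (g 0 0 * b + g 0 1 * d) - b0 * (g 1 0 * b + g 1 1 * d)) * g 1 0 ∧
    (((d0 * g 0 0 - b0 * g 1 0) * (g 1 0 * b + g 1 1 * d) -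
      (d0 * (g 0 0 * b + g 0 1 * d) - b0 * (g 1 0 * b + g 1 1 * d)) * g 1 0 : ℤ) : ℝ) ≤ S ^ 2 ∧
    ‖q (g 1 0) ((g 1 0 * b + g 1 1 * d) - (d0 * g 0 0 - b0 * g 1 0))
      (-(d0 * (g 0 0 * b + g 0 1 * d) - b0 * (g 1 0 * b + g 1 1 * d))) (z : ℂ)‖ ≤
        ε * S * z.im := by
  have hdet := det_eq g
  have hD : (d0 * g 0 0 - b0 * g 1 0) * (g 1 0 * b + g 1 1 * d) -
      (d0 * (g 0 0 * b + g 0 1 * d) - b0 * (g 1 0 * b + g 1 1 * d)) * g 1 0 = (d0 * d : ℤ) := by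
    linear_combination ((d0 : ℤ) * d) * hdet
  have hpos : (0 : ℤ) < d0 * d := by positivity
  have hle : (((d0 * d : ℤ)) : ℝ) ≤ S ^ 2 := by push_cast; exact hdS
  rw [hD]
  refine ⟨hpos, hle, ?_⟩
  have hd0r : (0 : ℝ) < d0 := by exact_mod_cast hd0
  have hdc : (d : ℂ) ≠ 0 := by exact_mod_cast hd.ne'
  have hd0c : (d0 : ℂ) ≠ 0 := by exact_mod_cast hd0.ne'
  set u : ℍ := g • w with hu
  have him : 0 < ((d0 : ℂ) * u - b0).im := by
    have : ((d0 : ℂ) * u - b0).im = d0 * u.im := by simp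
    rw [this]
    exact mul_pos hd0r u.im_pos
  set z' : ℍ := ⟨(d0 : ℂ) * u - b0, him⟩ with hz'
  have hz'c : (z' : ℂ) = (d0 : ℂ) * u - b0 := rfl
  have hzc : (z : ℂ) = (d0 : ℂ) * w0 - b0 := by
    rw [hw0]
    field_simp
    ring
  have hdz : dist z' z < δ := by
    have := dist_aff (d := (d0 : ℝ)) (b := (b0 : ℝ)) hd0r (u := u) (v := w0) (u' := z') (v' := z)
      (by rw [hz'c]; push_cast; rfl) (by rw [hzc]; push_cast; rfl)
    rw [this]
    exact hdist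
  have hden : (g 1 0 : ℂ) * w + (g 1 1 : ℂ) ≠ 0 := by
    have := denom_ne_zero (g : GL (Fin 2) ℝ) w
    simpa [denom] using this
  have huc : (u : ℂ) * ((g 1 0 : ℂ) * w + (g 1 1 : ℂ)) = (g 0 0 : ℂ) * w + (g 0 1 : ℂ) := by
    rw [hu, coe_specialLinearGroup_apply]
    simp only [algebraMap_int_eq, eq_intCast, Complex.ofReal_intCast]
    rw [div_mul_cancel₀ _ hden]
  have hwd : (w : ℂ) * d = (z : ℂ) + b := by
    rw [hw, div_mul_cancel₀ _ hdc]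
  have huc2 : (u : ℂ) * ((g 1 0 : ℂ) * ((z : ℂ) + b) + (g 1 1 : ℂ) * d) =
      (g 0 0 : ℂ) * ((z : ℂ) + b) + (g 0 1 : ℂ) * d := by
    rw [← hwd]
    linear_combination (d : ℂ) * huc
  refine near_le (w := z) (w' := z') (A := d0 * g 0 0 - b0 * g 1 0)
    (B := d0 * (g 0 0 * b + g 0 1 * d) - b0 * (g 1 0 * b + g 1 1 * d)) (C := g 1 0)
    (D := g 1 0 * b + g 1 1 * d) hδ hε hδε hS (by rw [hD]; exact hpos) (by rw [hD]; exact hle) ?_ hdz
  rw [hz'c]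
  push_cast
  linear_combination (d0 : ℂ) * huc2

theorem form_congr {p b : ℕ} (v1 v2 v3 : ℤ) :
    (p : ℤ) ∣ v1 * (b : ℤ) ^ 2 - v2 * b + v3 ↔
      (p : ℤ) ∣ v1 * ((b % p : ℕ) : ℤ) ^ 2 - v2 * ((b % p : ℕ) : ℤ) + v3 := by
  have h : (b : ℤ) = ((b % p : ℕ) : ℤ) + p * ((b / p : ℕ) : ℤ) := by
    exact_mod_cast (Nat.mod_add_div b p).symm
  generalize ((b % p : ℕ) : ℤ) = e at h
  generalize ((b / p : ℕ) : ℤ) = k at h
  have e1 : v1 * (b : ℤ) ^ 2 - v2 * b + v3 =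
      (v1 * e ^ 2 - v2 * e + v3) + p * (k * (v1 * (2 * e + p * k) - v2)) := by
    rw [h]; ring
  rw [e1]
  exact (dvd_add_left (dvd_mul_right _ _))

end Pool.Agent.D0H35.SN
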